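import Mathlib

/-!
# Definitions for judicious bisections
-/

namespace Pool.Agent.Helper718_bisection

/-- `e(S)`: the number of edges of `G` with both ends in `S`. -/
noncomputable def edgesWithin {V : Type} (G : SimpleGraph V) (S : Set V) : ℕ :=
  {e ∈ G.edgeSet | ∀ v ∈ e, v ∈ S}.ncard

/-- `V₁, V₂` is a bisection: a partition of the vertex set into two classes whose sizes differ by
at most one. -/
def IsBisection {V : Type} (V₁ V₂ : Set V) : Prop :=
  V₁ ∪ V₂ = Set.univ ∧ Disjoint V₁ V₂ ∧ |(V₁.ncard : ℤ) - (V₂.ncard : ℤ)| ≤ 1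

/-- The constants `c` such that every finite simple graph `G` with `m` edges and minimum degree at
least `k` has a bisection `V₁, V₂` with `max (e(V₁)) (e(V₂)) ≤ c m`. -/
def Admissible (k : ℕ) : Set ℝ :=
  {c | ∀ (V : Type) [Fintype V] (G : SimpleGraph V), (∀ v, k ≤ (G.neighborSet v).ncard) →
    ∃ V₁ V₂ : Set V, IsBisection V₁ V₂ ∧
      max (edgesWithin G V₁ : ℝ) (edgesWithin G V₂ : ℝ) ≤ c * (G.edgeSet.ncard : ℝ)}

end Pool.Agent.Helper718_bisection
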