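import Pool.Agent.Helper718_bisection.Graph
import Pool.Agent.Helper718_bisection.Defs

/-!
# The two bounds for `c(2) = 1/3`
-/

namespace Pool.Agent.Helper718_bisection

open Finset

/-- From a sign function to a bisection. -/
lemma finish {V : Type} [Fintype V] [DecidableEq V] (G : SimpleGraph V) {σ : V → ℤ}
    (hσ : IsSign σ) (hbal : |∑ v, σ v| ≤ 1)
    (h1 : 3 * Q (adj G) univ σ + 6 * L (adj G) σ ≤ M2 (adj G))
    (h2 : 3 * Q (adj G) univ σ - 6 * L (adj G) σ ≤ M2 (adj G)) :
    ∃ V₁ V₂ : Set V, IsBisection V₁ V₂ ∧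
      max (edgesWithin G V₁ : ℝ) (edgesWithin G V₂ : ℝ) ≤ 1 / 3 * (G.edgeSet.ncard : ℝ) := by
  classical
  have hm : 2 * (G.edgeSet.ncard : ℤ) = M2 (adj G) := by
    have h := two_mul_edges G (Set.univ : Set V)
    have e1 : ({e ∈ G.edgeSet | ∀ v ∈ e, v ∈ (Set.univ : Set V)} : Set (Sym2 V)) = G.edgeSet := by
      ext e; simp
    rw [e1] at h
    rw [h]
    unfold M2
    simp
  -- the count for a class
  have key : ∀ t : ℤ, (t = 1 ∨ t = -1) →
      8 * (edgesWithin G {v | σ v = t} : ℤ)
        = M2 (adj G) + 2 * (t * L (adj G) σ) + Q (adj G) univ σ := by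
    intro t ht
    have h := two_mul_edges G {v | σ v = t}
    have htt : t * t = 1 := by rcases ht with rfl | rfl <;> norm_num
    have e1 : ∀ u v, 4 * (if u ∈ {v | σ v = t} ∧ v ∈ {v | σ v = t} then adj G u v else 0)
        = adj G u v + t * (adj G u v * σ u) + t * (adj G u v * σ v)
          + adj G u v * σ u * σ v := by
      intro u v
      have e2 : adj G u v + t * (adj G u v * σ u) + t * (adj G u v * σ v)
          + adj G u v * σ u * σ v = adj G u v * ((1 + t * σ u) * (1 + t * σ v)) := by
        have : adj G u v * ((1 + t * σ u) * (1 + t * σ v)) = adj G u v + t * (adj G u v * σ u)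
          + t * (adj G u v * σ v) + (t * t) * (adj G u v * σ u * σ v) := by ring
        rw [this, htt]; ring
      rw [e2]
      simp only [Set.mem_ofPred_eq]
      rcases ht with rfl | rfl <;> rcases hσ u with hu | hu <;> rcases hσ v with hv | hv <;>
        simp [hu, hv] <;> ring
    have e3 : 8 * (edgesWithin G {v | σ v = t} : ℤ)
        = ∑ u, ∑ v, 4 * (if u ∈ {v | σ v = t} ∧ v ∈ {v | σ v = t} then adj G u v else 0) := by
      simp only [← Finset.mul_sum]
      rw [← h]
      unfold edgesWithin
      ring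
    rw [e3]
    simp only [e1, Finset.sum_add_distrib, ← Finset.mul_sum]
    have e4 : ∑ u, ∑ v, adj G u v * σ u = L (adj G) σ := by
      unfold L
      refine Finset.sum_congr rfl fun u _ => ?_
      rw [Finset.mul_sum]
      exact Finset.sum_congr rfl fun v _ => by ring
    have e5 : ∑ u, ∑ v, adj G u v * σ v = L (adj G) σ := by
      rw [← e4, Finset.sum_comm]
      refine Finset.sum_congr rfl fun u _ => Finset.sum_congr rfl fun v _ => ?_
      rw [adj_symm]
    rw [e4, e5]
    unfold M2 Q
    ring
  refine ⟨{v | σ v = 1}, {v | σ v = -1}, ⟨?_, ?_, ?_⟩, ?_⟩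
  · ext v
    simpa using hσ v
  · rw [Set.disjoint_left]
    intro v hv hv'
    simp only [Set.mem_ofPred_eq] at hv hv'
    omega
  · have e1 : (({v | σ v = 1} : Set V).ncard : ℤ) - (({v | σ v = -1} : Set V).ncard : ℤ)
        = ∑ v, σ v := by
      have a1 : ({v | σ v = 1} : Set V).ncard = (univ.filter fun v => σ v = 1).card := by
        rw [← Set.ncard_coe_finset]; congr 1; ext v; simp
      have a2 : ({v | σ v = -1} : Set V).ncard = (univ.filter fun v => σ v = -1).card := by
        rw [← Set.ncard_coe_finset]; congr 1; ext v; simp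
      rw [a1, a2, Finset.card_filter, Finset.card_filter]
      push_cast
      rw [← Finset.sum_sub_distrib]
      refine Finset.sum_congr rfl fun v _ => ?_
      rcases hσ v with h | h <;> simp [h]
    rw [e1]; exact hbal
  · have k1 := key 1 (Or.inl rfl)
    have k2 := key (-1) (Or.inr rfl)
    have b1 : 3 * (edgesWithin G {v | σ v = 1} : ℤ) ≤ G.edgeSet.ncard := by linarith
    have b2 : 3 * (edgesWithin G {v | σ v = -1} : ℤ) ≤ G.edgeSet.ncard := by linarith
    have b1' : 3 * (edgesWithin G {v | σ v = 1} : ℝ) ≤ G.edgeSet.ncard := by exact_mod_cast b1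
    have b2' : 3 * (edgesWithin G {v | σ v = -1} : ℝ) ≤ G.edgeSet.ncard := by exact_mod_cast b2
    refine max_le ?_ ?_ <;> linarith

/-- The upper bound: `1/3` is admissible. -/
lemma upper : (1 / 3 : ℝ) ∈ Admissible 2 := by
  classical
  intro V _ G hdeg
  have hdeg' : ∀ v, 2 ≤ ∑ u, adj G v u := by
    intro v
    rw [sum_adj]
    exact_mod_cast hdeg v
  rcases Nat.even_or_odd (Fintype.card V) with hev | hodd
  · obtain ⟨σ, s1, s2, s3, s4⟩ := core (adj_symm G) (adj_self G) (adj_zero_one G) hev ∅
      (by simp) (fun v _ => hdeg' v)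
    exact finish G s1 (by rw [s2]; simp) s3 s4
  · -- add an isolated vertex
    set B : Option V → Option V → ℤ := fun x y =>
      match x, y with
      | some u, some v => adj G u v
      | _, _ => 0 with hB
    have hev : Even (Fintype.card (Option V)) := by
      rw [Fintype.card_option]; exact hodd.add_one
    have row : ∀ u : V, ∑ y, B (some u) y = ∑ v, adj G u v := by
      intro u
      rw [Fintype.sum_option]
      simp [hB]
    obtain ⟨τ, s1, s2, s3, s4⟩ := core (A := B)
      (fun x y => by
        cases x <;> cases y <;> simp only [hB]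
        exact adj_symm G _ _)
      (fun x => by cases x <;> simp [hB, adj_self])
      (fun x y => by
        cases x <;> cases y <;> simp only [hB, true_or]
        exact adj_zero_one G _ _)
      hev {none} (fun z hz v => by
        rw [Finset.mem_singleton] at hz
        subst hz
        cases v <;> simp [hB])
      (fun x hx => by
        cases x with
        | none => simp at hx
        | some u => rw [row u]; exact hdeg' u)
    set σ : V → ℤ := fun v => τ (some v) with hσ
    have hQ : Q B univ τ = Q (adj G) univ σ := by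
      unfold Q
      rw [Fintype.sum_option]
      have : ∑ y, B none y * τ none * τ y = 0 := Finset.sum_eq_zero fun y _ => by
        cases y <;> simp [hB]
      rw [this, zero_add]
      refine Finset.sum_congr rfl fun u _ => ?_
      rw [Fintype.sum_option]
      simp [hB, hσ]
    have hL : L B τ = L (adj G) σ := by
      unfold L
      rw [Fintype.sum_option]
      have : ∑ y, B none y = 0 := Finset.sum_eq_zero fun y _ => by
        cases y <;> simp [hB]
      rw [this, mul_zero, zero_add]
      refine Finset.sum_congr rfl fun u _ => ?_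
      rw [row u]
    have hM : M2 B = M2 (adj G) := by
      unfold M2
      rw [Fintype.sum_option]
      have : ∑ y, B none y = 0 := Finset.sum_eq_zero fun y _ => by
        cases y <;> simp [hB]
      rw [this, zero_add]
      exact Finset.sum_congr rfl fun u _ => row u
    rw [hQ, hL, hM] at s3 s4
    refine finish G (σ := σ) (fun v => s1 (some v)) ?_ s3 s4
    rw [Fintype.sum_option] at s2
    have : ∑ v, σ v = -τ none := by linarith
    rw [this]
    rcases s1 none with h | h <;> simp [h]

/-- The graph `K_{3,l}`. -/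
lemma count_bip (l : ℕ) (S : Set (Fin 3 ⊕ Fin l)) :
    (edgesWithin (completeBipartiteGraph (Fin 3) (Fin l)) S : ℤ)
      = ((Sum.inl ⁻¹' S : Set (Fin 3)).ncard : ℤ) * ((Sum.inr ⁻¹' S : Set (Fin l)).ncard : ℤ) := by
  classical
  have h := two_mul_edges (completeBipartiteGraph (Fin 3) (Fin l)) S
  have a1 : ((Sum.inl ⁻¹' S : Set (Fin 3)).ncard : ℤ)
      = ∑ i : Fin 3, if Sum.inl i ∈ S then (1:ℤ) else 0 := by
    have : (Sum.inl ⁻¹' S : Set (Fin 3)).ncard = (univ.filter fun i => Sum.inl i ∈ S).card := by
      rw [← Set.ncard_coe_finset]; congr 1; ext v; simp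
    rw [this, Finset.card_filter]; push_cast; rfl
  have a2 : ((Sum.inr ⁻¹' S : Set (Fin l)).ncard : ℤ)
      = ∑ i : Fin l, if Sum.inr i ∈ S then (1:ℤ) else 0 := by
    have : (Sum.inr ⁻¹' S : Set (Fin l)).ncard = (univ.filter fun i => Sum.inr i ∈ S).card := by
      rw [← Set.ncard_coe_finset]; congr 1; ext v; simp
    rw [this, Finset.card_filter]; push_cast; rfl
  rw [a1, a2]
  rw [Fintype.sum_sum_type] at h
  simp only [Fintype.sum_sum_type] at h
  have z1 : ∀ i j : Fin 3, adj (completeBipartiteGraph (Fin 3) (Fin l)) (Sum.inl i) (Sum.inl j)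
      = 0 := by intro i j; simp [adj]
  have z2 : ∀ i j : Fin l, adj (completeBipartiteGraph (Fin 3) (Fin l)) (Sum.inr i) (Sum.inr j)
      = 0 := by intro i j; simp [adj]
  have z3 : ∀ (i : Fin 3) (j : Fin l),
      adj (completeBipartiteGraph (Fin 3) (Fin l)) (Sum.inl i) (Sum.inr j) = 1 := by
    intro i j; simp [adj]
  have z4 : ∀ (i : Fin l) (j : Fin 3),
      adj (completeBipartiteGraph (Fin 3) (Fin l)) (Sum.inr i) (Sum.inl j) = 1 := by
    intro i j; simp [adj]
  simp only [z1, z2, z3, z4, ite_self, Finset.sum_const_zero, zero_add, add_zero] at h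
  have p1 : ∑ i : Fin 3, ∑ j : Fin l,
      (if Sum.inl i ∈ S ∧ Sum.inr j ∈ S then (1:ℤ) else 0)
      = (∑ i : Fin 3, if Sum.inl i ∈ S then (1:ℤ) else 0)
        * (∑ i : Fin l, if Sum.inr i ∈ S then (1:ℤ) else 0) := by
    rw [Finset.sum_mul_sum]
    refine Finset.sum_congr rfl fun i _ => Finset.sum_congr rfl fun j _ => ?_
    by_cases h1 : Sum.inl i ∈ S <;> by_cases h2 : Sum.inr j ∈ S <;> simp [h1, h2]
  have p2 : ∑ j : Fin l, ∑ i : Fin 3,
      (if Sum.inr j ∈ S ∧ Sum.inl i ∈ S then (1:ℤ) else 0)
      = (∑ i : Fin 3, if Sum.inl i ∈ S then (1:ℤ) else 0)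
        * (∑ i : Fin l, if Sum.inr i ∈ S then (1:ℤ) else 0) := by
    rw [Finset.sum_comm, ← p1]
    refine Finset.sum_congr rfl fun i _ => Finset.sum_congr rfl fun j _ => ?_
    simp only [and_comm]
  rw [p1, p2] at h
  unfold edgesWithin
  linarith

/-- Sizes of the two classes in terms of the two sides of the bipartite graph. -/
lemma card_split (l : ℕ) (S : Set (Fin 3 ⊕ Fin l)) :
    S.ncard = (Sum.inl ⁻¹' S : Set (Fin 3)).ncard + (Sum.inr ⁻¹' S : Set (Fin l)).ncard := by
  classical
  have h1 : S = Sum.inl '' (Sum.inl ⁻¹' S) ∪ Sum.inr '' (Sum.inr ⁻¹' S) := by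
    ext x
    cases x <;> simp
  have h2 : Disjoint (Sum.inl '' (Sum.inl ⁻¹' S) : Set (Fin 3 ⊕ Fin l))
      (Sum.inr '' (Sum.inr ⁻¹' S)) := by
    rw [Set.disjoint_left]
    rintro x ⟨i, _, rfl⟩ ⟨j, _, hj⟩
    exact absurd hj (by simp)
  conv_lhs => rw [h1]
  rw [Set.ncard_union_eq h2 (Set.toFinite _) (Set.toFinite _),
    Set.ncard_image_of_injective _ Sum.inl_injective,
    Set.ncard_image_of_injective _ Sum.inr_injective]

/-- The lower bound: every admissible constant is at least `1/3`. -/
lemma lower {c : ℝ} (hc : c ∈ Admissible 2) : 1 / 3 ≤ c := by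
  classical
  have main : ∀ l : ℕ, 8 ≤ l → (l : ℝ) - 2 ≤ c * (3 * l) := by
    intro l hl
    obtain ⟨V₁, V₂, ⟨hU, hD, hcard⟩, hmax⟩ := hc (Fin 3 ⊕ Fin l)
      (completeBipartiteGraph (Fin 3) (Fin l)) (by
        intro v
        have h := sum_adj (completeBipartiteGraph (Fin 3) (Fin l)) v
        have h2 : (2:ℤ) ≤ ∑ u, adj (completeBipartiteGraph (Fin 3) (Fin l)) v u := by
          rw [Fintype.sum_sum_type]
          cases v with
          | inl i =>
            simp only [adj, completeBipartiteGraph_adj, Sum.isLeft_inl, Sum.isRight_inl,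
              Sum.isLeft_inr, Sum.isRight_inr]
            simp
            omega
          | inr i =>
            simp only [adj, completeBipartiteGraph_adj, Sum.isLeft_inl, Sum.isRight_inl,
              Sum.isLeft_inr, Sum.isRight_inr]
            simp
        rw [h] at h2
        exact_mod_cast h2)
    -- number of edges
    have hE : ((completeBipartiteGraph (Fin 3) (Fin l)).edgeSet.ncard : ℤ) = 3 * l := by
      have h := count_bip l Set.univ
      have e1 : edgesWithin (completeBipartiteGraph (Fin 3) (Fin l)) Set.univ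
          = (completeBipartiteGraph (Fin 3) (Fin l)).edgeSet.ncard := by
        unfold edgesWithin
        congr 1
        ext e; simp
      rw [e1] at h
      rw [h]
      simp [Set.ncard_univ]
    have hE' : ((completeBipartiteGraph (Fin 3) (Fin l)).edgeSet.ncard : ℝ) = 3 * l := by
      exact_mod_cast hE
    rw [hE'] at hmax
    -- the classes
    have c1 := count_bip l V₁
    have c2 := count_bip l V₂
    have n1 := card_split l V₁
    have n2 := card_split l V₂
    set a₁ := (Sum.inl ⁻¹' V₁ : Set (Fin 3)).ncard with ha₁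
    set a₂ := (Sum.inl ⁻¹' V₂ : Set (Fin 3)).ncard with ha₂
    set b₁ := (Sum.inr ⁻¹' V₁ : Set (Fin l)).ncard with hb₁
    set b₂ := (Sum.inr ⁻¹' V₂ : Set (Fin l)).ncard with hb₂
    have hV₂ : V₂ = V₁ᶜ := by
      ext x
      constructor
      · intro hx hx1; exact Set.disjoint_left.mp hD hx1 hx
      · intro hx
        have : x ∈ V₁ ∪ V₂ := by rw [hU]; trivial
        exact this.resolve_left hx
    have t1 : a₁ + a₂ = 3 := by
      have := Set.ncard_add_ncard_compl (Sum.inl ⁻¹' V₁ : Set (Fin 3))
      rw [← Set.preimage_compl, ← hV₂] at this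
      simpa using this
    have t2 : b₁ + b₂ = l := by
      have := Set.ncard_add_ncard_compl (Sum.inr ⁻¹' V₁ : Set (Fin l))
      rw [← Set.preimage_compl, ← hV₂] at this
      simpa using this
    rw [n1, n2] at hcard
    rw [abs_le] at hcard
    push_cast at hcard
    have m1 : (edgesWithin (completeBipartiteGraph (Fin 3) (Fin l)) V₁ : ℝ) ≤ c * (3 * l) :=
      (le_max_left _ _).trans hmax
    have m2 : (edgesWithin (completeBipartiteGraph (Fin 3) (Fin l)) V₂ : ℝ) ≤ c * (3 * l) :=
      (le_max_right _ _).trans hmax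
    have big : (l : ℤ) - 2 ≤ edgesWithin (completeBipartiteGraph (Fin 3) (Fin l)) V₁ ∨
        (l : ℤ) - 2 ≤ edgesWithin (completeBipartiteGraph (Fin 3) (Fin l)) V₂ := by
      rw [c1, c2]
      have ha : a₁ = 0 ∨ a₁ = 1 ∨ a₁ = 2 ∨ a₁ = 3 := by omega
      rcases ha with h | h | h | h
      · right
        have : a₂ = 3 := by omega
        rw [this]; push_cast; omega
      · right
        have : a₂ = 2 := by omega
        rw [this]; push_cast; omega
      · left
        rw [h]; push_cast; omega
      · left
        rw [h]; push_cast; omega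
    rcases big with h | h
    · have : (l : ℝ) - 2 ≤ edgesWithin (completeBipartiteGraph (Fin 3) (Fin l)) V₁ := by
        exact_mod_cast h
      linarith
    · have : (l : ℝ) - 2 ≤ edgesWithin (completeBipartiteGraph (Fin 3) (Fin l)) V₂ := by
        exact_mod_cast h
      linarith
  by_contra hlt
  push Not at hlt
  obtain ⟨l, hl⟩ := exists_nat_gt (max 8 (2 / (1 - 3 * c)))
  have hl8 : 8 ≤ l := by
    have : (8 : ℝ) < l := lt_of_le_of_lt (le_max_left _ _) hl
    exact_mod_cast this.le
  have hl2 : 2 / (1 - 3 * c) < l := lt_of_le_of_lt (le_max_right _ _) hl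
  have hpos : 0 < 1 - 3 * c := by linarith
  rw [div_lt_iff₀ hpos] at hl2
  have := main l hl8
  nlinarith

end Pool.Agent.Helper718_bisection
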