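import Pool.Agent.Helper718_bisection.Bounds

/-!
# The lower bound for `c(2)` and `c(3)`
-/

namespace Pool.Agent.Helper718_bisection

open Finset

/-- The lower bound: every constant admissible for some `k ≤ 3` is at least `1/3`. -/
lemma lower_le_three {k : ℕ} (hk : k ≤ 3) {c : ℝ} (hc : c ∈ Admissible k) : 1 / 3 ≤ c := by
  classical
  have main : ∀ l : ℕ, 8 ≤ l → (l : ℝ) - 2 ≤ c * (3 * l) := by
    intro l hl
    obtain ⟨V₁, V₂, ⟨hU, hD, hcard⟩, hmax⟩ := hc (Fin 3 ⊕ Fin l)
      (completeBipartiteGraph (Fin 3) (Fin l)) (by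
        intro v
        have h := sum_adj (completeBipartiteGraph (Fin 3) (Fin l)) v
        have h2 : (3:ℤ) ≤ ∑ u, adj (completeBipartiteGraph (Fin 3) (Fin l)) v u := by
          rw [Fintype.sum_sum_type]
          cases v with
          | inl i =>
            simp only [adj, completeBipartiteGraph_adj, Sum.isLeft_inl, Sum.isRight_inl,
              Sum.isLeft_inr, Sum.isRight_inr]
            simp
            omega
          | inr i =>
            simp only [adj, completeBipartiteGraph_adj, Sum.isLeft_inl, Sum.isRight_inl,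
              Sum.isLeft_inr, Sum.isRight_inr]
            simp
        rw [h] at h2
        have h3 : 3 ≤ ((completeBipartiteGraph (Fin 3) (Fin l)).neighborSet v).ncard := by
          exact_mod_cast h2
        omega)
    -- number of edges
    have hE : ((completeBipartiteGraph (Fin 3) (Fin l)).edgeSet.ncard : ℤ) = 3 * l := by
      have h := count_bip l Set.univ
      have e1 : edgesWithin (completeBipartiteGraph (Fin 3) (Fin l)) Set.univ
          = (completeBipartiteGraph (Fin 3) (Fin l)).edgeSet.ncard := by
        unfold edgesWithin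
        congr 1
        ext e; simp
      rw [e1] at h
      rw [h]
      simp [Set.ncard_univ]
    have hE' : ((completeBipartiteGraph (Fin 3) (Fin l)).edgeSet.ncard : ℝ) = 3 * l := by
      exact_mod_cast hE
    rw [hE'] at hmax
    -- the classes
    have c1 := count_bip l V₁
    have c2 := count_bip l V₂
    have n1 := card_split l V₁
    have n2 := card_split l V₂
    set a₁ := (Sum.inl ⁻¹' V₁ : Set (Fin 3)).ncard with ha₁
    set a₂ := (Sum.inl ⁻¹' V₂ : Set (Fin 3)).ncard with ha₂
    set b₁ := (Sum.inr ⁻¹' V₁ : Set (Fin l)).ncard with hb₁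
    set b₂ := (Sum.inr ⁻¹' V₂ : Set (Fin l)).ncard with hb₂
    have hV₂ : V₂ = V₁ᶜ := by
      ext x
      constructor
      · intro hx hx1; exact Set.disjoint_left.mp hD hx1 hx
      · intro hx
        have : x ∈ V₁ ∪ V₂ := by rw [hU]; trivial
        exact this.resolve_left hx
    have t1 : a₁ + a₂ = 3 := by
      have := Set.ncard_add_ncard_compl (Sum.inl ⁻¹' V₁ : Set (Fin 3))
      rw [← Set.preimage_compl, ← hV₂] at this
      simpa using this
    have t2 : b₁ + b₂ = l := by
      have := Set.ncard_add_ncard_compl (Sum.inr ⁻¹' V₁ : Set (Fin l))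
      rw [← Set.preimage_compl, ← hV₂] at this
      simpa using this
    rw [n1, n2] at hcard
    rw [abs_le] at hcard
    push_cast at hcard
    have m1 : (edgesWithin (completeBipartiteGraph (Fin 3) (Fin l)) V₁ : ℝ) ≤ c * (3 * l) :=
      (le_max_left _ _).trans hmax
    have m2 : (edgesWithin (completeBipartiteGraph (Fin 3) (Fin l)) V₂ : ℝ) ≤ c * (3 * l) :=
      (le_max_right _ _).trans hmax
    have big : (l : ℤ) - 2 ≤ edgesWithin (completeBipartiteGraph (Fin 3) (Fin l)) V₁ ∨
        (l : ℤ) - 2 ≤ edgesWithin (completeBipartiteGraph (Fin 3) (Fin l)) V₂ := by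
      rw [c1, c2]
      have ha : a₁ = 0 ∨ a₁ = 1 ∨ a₁ = 2 ∨ a₁ = 3 := by omega
      rcases ha with h | h | h | h
      · right
        have : a₂ = 3 := by omega
        rw [this]; push_cast; omega
      · right
        have : a₂ = 2 := by omega
        rw [this]; push_cast; omega
      · left
        rw [h]; push_cast; omega
      · left
        rw [h]; push_cast; omega
    rcases big with h | h
    · have : (l : ℝ) - 2 ≤ edgesWithin (completeBipartiteGraph (Fin 3) (Fin l)) V₁ := by
        exact_mod_cast h
      linarith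
    · have : (l : ℝ) - 2 ≤ edgesWithin (completeBipartiteGraph (Fin 3) (Fin l)) V₂ := by
        exact_mod_cast h
      linarith
  by_contra hlt
  push Not at hlt
  obtain ⟨l, hl⟩ := exists_nat_gt (max 8 (2 / (1 - 3 * c)))
  have hl8 : 8 ≤ l := by
    have : (8 : ℝ) < l := lt_of_le_of_lt (le_max_left _ _) hl
    exact_mod_cast this.le
  have hl2 : 2 / (1 - 3 * c) < l := lt_of_le_of_lt (le_max_right _ _) hl
  have hpos : 0 < 1 - 3 * c := by linarith
  rw [div_lt_iff₀ hpos] at hl2
  have := main l hl8
  nlinarith

/-- `1/3` is admissible for every `k ≥ 2`. -/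
lemma upper_ge_two {k : ℕ} (hk : 2 ≤ k) : (1 / 3 : ℝ) ∈ Admissible k := by
  intro V _ G hdeg
  exact upper V G fun v => hk.trans (hdeg v)

end Pool.Agent.Helper718_bisection
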