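import Mathlib

/-!
# Every graph of minimum degree at least two has a bisection with at most `m / 3` edges per class

Outline of the proof (files `Core`, `Match`, `Gain`, `Main`, `Final`, `Graph`, `Bounds`).

Write a bisection as a sign function `σ`, put `Q(σ) = ∑ A(u,v) σ(u) σ(v)` over ordered pairs and
`L(σ) = ∑ σ(v) d(v)`.  Then `8 e(V₁) = 2m + 2L + Q` and `8 e(V₂) = 2m - 2L + Q`, so the claim is
`3Q + 6|L| ≤ 2m`.  An odd number of vertices is made even by adding one isolated vertex.

* Gluing (`merge`): two balanced sign functions on disjoint sets can be glued with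
  `Q ≤ Q₁ + Q₂`, because the two relative signs average to `Q₁ + Q₂`.
* `even_set`: splitting off the two vertices of smallest degree repeatedly, every set `W` of even
  size has a balanced `σ` with `Q ≤ 0` and `|L| ≤ max d - min d` (over `W`).
* Let `a, b` be vertices of largest and second largest degree.
  - If `d(a) - d(b) ≤ m/3` (`split_pair`): separate `a` from `b`, use `even_set` on the rest and
    average over the two orientations; `|D + X| + |D - X| = 2 max(|D|, |X|)`.  All other degrees
    are at most `m/3 + 1`.  If there is the extra isolated vertex and three vertices have degree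
    above `m/3`, two of them are adjacent and one separates these two instead.
  - If `d(a) - d(b) > m/3` (`one_hub`): put `a` and `b` in different classes.  In `G - a - b` take
    a maximal matching with `s` edges, and tie together `q` disjoint pairs of unmatched vertices of
    degree one whose neighbours differ, as many as possible (`gain`); this gives a balanced `σ`
    with `Q ≤ -2(s + q)`.  Counting edges with all degrees at least two shows that one of the two
    orientations has `e(V₁) ≤ m/3`, and `e(V₂) ≤ m/3` holds for both of them.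
-/

namespace Pool.Agent.Helper718_bisection

open Finset

variable {V : Type*} [DecidableEq V]

/-- The quadratic form of a matrix `B` restricted to a finite set `W`. -/
def Q (B : V → V → ℤ) (W : Finset V) (σ : V → ℤ) : ℤ :=
  ∑ u ∈ W, ∑ v ∈ W, B u v * σ u * σ v

/-- A function with values `1` and `-1`. -/
def IsSign (σ : V → ℤ) : Prop := ∀ v, σ v = 1 ∨ σ v = -1

omit [DecidableEq V] in
lemma IsSign.sq {σ : V → ℤ} (h : IsSign σ) (v : V) : σ v * σ v = 1 := by
  rcases h v with h | h <;> simp [h]

omit [DecidableEq V] in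
lemma Q_congr {B : V → V → ℤ} {W : Finset V} {σ τ : V → ℤ} (h : ∀ v ∈ W, σ v = τ v) :
    Q B W σ = Q B W τ := by
  unfold Q
  refine Finset.sum_congr rfl fun u hu => Finset.sum_congr rfl fun v hv => ?_
  rw [h u hu, h v hv]

lemma Q_union {B : V → V → ℤ} (hB : ∀ u v, B u v = B v u) {W₁ W₂ : Finset V}
    (hd : Disjoint W₁ W₂) (σ : V → ℤ) :
    Q B (W₁ ∪ W₂) σ = Q B W₁ σ + Q B W₂ σ
      + 2 * ∑ u ∈ W₁, ∑ v ∈ W₂, B u v * σ u * σ v := by
  unfold Q
  rw [Finset.sum_union hd]
  have e1 : ∀ u, ∑ v ∈ W₁ ∪ W₂, B u v * σ u * σ v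
      = ∑ v ∈ W₁, B u v * σ u * σ v + ∑ v ∈ W₂, B u v * σ u * σ v := fun u =>
    Finset.sum_union hd
  simp only [e1, Finset.sum_add_distrib]
  have e2 : ∑ u ∈ W₂, ∑ v ∈ W₁, B u v * σ u * σ v = ∑ u ∈ W₁, ∑ v ∈ W₂, B u v * σ u * σ v := by
    rw [Finset.sum_comm]
    refine Finset.sum_congr rfl fun u _ => Finset.sum_congr rfl fun v _ => ?_
    rw [hB v u]; ring
  rw [e2]; ring

omit [DecidableEq V] in
lemma Q_smul {B : V → V → ℤ} {W : Finset V} {σ : V → ℤ} {t : ℤ} (ht : t = 1 ∨ t = -1) :
    Q B W (fun v => t * σ v) = Q B W σ := by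
  unfold Q
  refine Finset.sum_congr rfl fun u _ => Finset.sum_congr rfl fun v _ => ?_
  rcases ht with rfl | rfl <;> ring

/-- Gluing two sign functions on disjoint sets, choosing the relative sign well. -/
lemma merge {B : V → V → ℤ} (hB : ∀ u v, B u v = B v u) {W₁ W₂ : Finset V}
    (hd : Disjoint W₁ W₂) {σ₁ σ₂ : V → ℤ} (h₁ : IsSign σ₁) (h₂ : IsSign σ₂) :
    ∃ (σ : V → ℤ) (t : ℤ), IsSign σ ∧ (t = 1 ∨ t = -1) ∧ (∀ v ∈ W₁, σ v = σ₁ v) ∧
      (∀ v ∈ W₂, σ v = t * σ₂ v) ∧ Q B (W₁ ∪ W₂) σ ≤ Q B W₁ σ₁ + Q B W₂ σ₂ := by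
  set c : ℤ := ∑ u ∈ W₁, ∑ v ∈ W₂, B u v * σ₁ u * σ₂ v with hc
  have key : ∀ t : ℤ, (t = 1 ∨ t = -1) → t * c ≤ 0 →
      ∃ (σ : V → ℤ) (t : ℤ), IsSign σ ∧ (t = 1 ∨ t = -1) ∧ (∀ v ∈ W₁, σ v = σ₁ v) ∧
      (∀ v ∈ W₂, σ v = t * σ₂ v) ∧ Q B (W₁ ∪ W₂) σ ≤ Q B W₁ σ₁ + Q B W₂ σ₂ := by
    intro t ht htc
    have m1 : ∀ v ∈ W₁, v ∉ W₂ := fun v hv => Finset.disjoint_left.mp hd hv
    refine ⟨fun v => if v ∈ W₂ then t * σ₂ v else σ₁ v, t, ?_, ht, ?_, ?_, ?_⟩
    · intro v
      by_cases hv : v ∈ W₂
      · simp only [hv, if_true]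
        rcases ht with rfl | rfl <;> rcases h₂ v with h | h <;> simp [h]
      · simpa only [hv, if_false] using h₁ v
    · intro v hv
      simp [m1 v hv]
    · intro v hv
      simp [hv]
    · rw [Q_union hB hd]
      have a1 : Q B W₁ (fun v => if v ∈ W₂ then t * σ₂ v else σ₁ v) = Q B W₁ σ₁ :=
        Q_congr fun v hv => by simp [m1 v hv]
      have a2 : Q B W₂ (fun v => if v ∈ W₂ then t * σ₂ v else σ₁ v) = Q B W₂ σ₂ := by
        rw [← Q_smul (B := B) (W := W₂) (σ := σ₂) ht]
        exact Q_congr fun v hv => by simp [hv]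
      have a3 : ∑ u ∈ W₁, ∑ v ∈ W₂, B u v * (if u ∈ W₂ then t * σ₂ u else σ₁ u) *
          (if v ∈ W₂ then t * σ₂ v else σ₁ v) = t * c := by
        rw [hc, Finset.mul_sum]
        refine Finset.sum_congr rfl fun u hu => ?_
        rw [Finset.mul_sum]
        refine Finset.sum_congr rfl fun v hv => ?_
        simp only [m1 u hu, hv, if_true, if_false]
        ring
      rw [a1, a2, a3]
      linarith
  rcases le_total c 0 with h | h
  · exact key 1 (Or.inl rfl) (by linarith)
  · exact key (-1) (Or.inr rfl) (by linarith)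

lemma Q_pair {B : V → V → ℤ} (hB : ∀ u v, B u v = B v u) (hB0 : ∀ u, B u u = 0) {x y : V}
    (hxy : x ≠ y) (σ : V → ℤ) : Q B {x, y} σ = 2 * (B x y * σ x * σ y) := by
  unfold Q
  rw [Finset.sum_pair hxy, Finset.sum_pair hxy, Finset.sum_pair hxy, hB0, hB0, hB y x]
  ring

/-- The sign function `+1` except `-1` at `y`. -/
def pm (y : V) : V → ℤ := fun v => if v = y then -1 else 1

lemma pm_isSign (y : V) : IsSign (pm y) := by
  intro v; unfold pm; split_ifs <;> simp

lemma pm_self (y : V) : pm y y = -1 := by simp [pm]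

lemma pm_ne {y v : V} (h : v ≠ y) : pm y v = 1 := by simp [pm, h]

/-- Every finite set of even size has a balanced sign function whose quadratic form is
nonpositive, and whose `d`-weighted sum is at most the spread of `d`. -/
lemma even_set {B : V → V → ℤ} (hB : ∀ u v, B u v = B v u) (hB0 : ∀ u, B u u = 0)
    (hBn : ∀ u v, 0 ≤ B u v) (d : V → ℤ) :
    ∀ (k : ℕ) (W : Finset V), W.card = 2 * k → ∀ M μ : ℤ, (∀ v ∈ W, d v ≤ M) →
      (∀ v ∈ W, μ ≤ d v) → μ ≤ M →
      ∃ σ : V → ℤ, IsSign σ ∧ ∑ v ∈ W, σ v = 0 ∧ Q B W σ ≤ 0 ∧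
        |∑ v ∈ W, σ v * d v| ≤ M - μ := by
  intro k
  induction k with
  | zero =>
    intro W hW M μ _ _ h
    have : W = ∅ := by
      rw [← Finset.card_eq_zero]; simpa using hW
    subst this
    refine ⟨fun _ => 1, fun _ => Or.inl rfl, by simp, by simp [Q], ?_⟩
    simp only [Finset.sum_empty, abs_zero]; linarith
  | succ k ih =>
    intro W hW M μ hM hμ hμM
    have hne : W.Nonempty := by
      rw [← Finset.card_pos]; omega
    obtain ⟨y, hy, hymin⟩ := Finset.exists_min_image W d hne
    have hc1 : (W.erase y).card = 2 * k + 1 := by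
      rw [Finset.card_erase_of_mem hy]; omega
    have hne1 : (W.erase y).Nonempty := by
      rw [← Finset.card_pos]; omega
    obtain ⟨x, hx, hxmin⟩ := Finset.exists_min_image (W.erase y) d hne1
    have hc2 : ((W.erase y).erase x).card = 2 * k := by
      rw [Finset.card_erase_of_mem hx]; omega
    have hxy : x ≠ y := (Finset.mem_erase.mp hx).1
    have hxW : x ∈ W := (Finset.mem_erase.mp hx).2
    obtain ⟨σ₁, s1, s2, s3, s4⟩ := ih ((W.erase y).erase x) hc2 M (d x)
      (fun v hv => hM v (Finset.mem_of_mem_erase (Finset.mem_of_mem_erase hv)))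
      (fun v hv => hxmin v (Finset.mem_of_mem_erase hv)) (hM x hxW)
    set W₀ := (W.erase y).erase x with hW₀
    have hdis : Disjoint W₀ {x, y} := by
      rw [Finset.disjoint_left]
      intro v hv hv2
      simp only [hW₀, Finset.mem_erase] at hv
      simp only [Finset.mem_insert, Finset.mem_singleton] at hv2
      rcases hv2 with h | h
      · exact hv.1 h
      · exact hv.2.1 h
    have hun : W₀ ∪ {x, y} = W := by
      ext v
      simp only [hW₀, Finset.mem_union, Finset.mem_erase, Finset.mem_insert,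
        Finset.mem_singleton]
      constructor
      · rintro (h | h | h)
        · exact h.2.2
        · rw [h]; exact hxW
        · rw [h]; exact hy
      · intro h
        by_cases h1 : v = x
        · right; left; exact h1
        · by_cases h2 : v = y
          · right; right; exact h2
          · left; exact ⟨h1, h2, h⟩
    obtain ⟨σ, t, g1, g2, g3, g4, g5⟩ := merge hB hdis s1 (pm_isSign y)
    rw [hun] at g5
    have hσx : σ x = t := by
      rw [g4 x (by simp), pm_ne hxy]; ring
    have hσy : σ y = -t := by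
      rw [g4 y (by simp), pm_self]; ring
    refine ⟨σ, g1, ?_, ?_, ?_⟩
    · rw [← hun, Finset.sum_union hdis, Finset.sum_pair hxy, hσx, hσy,
        Finset.sum_congr rfl g3, s2]
      ring
    · rw [Q_pair hB hB0 hxy, pm_ne hxy, pm_self] at g5
      have := hBn x y
      linarith
    · rw [← hun, Finset.sum_union hdis, Finset.sum_pair hxy, hσx, hσy]
      have e1 : ∑ v ∈ W₀, σ v * d v = ∑ v ∈ W₀, σ₁ v * d v :=
        Finset.sum_congr rfl fun v hv => by rw [g3 v hv]
      rw [e1]
      have h1 : d y ≤ d x := hymin x hxW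
      have h2 : μ ≤ d y := hμ y hy
      rw [abs_le] at s4 ⊢
      rcases g2 with rfl | rfl
      · constructor <;> linarith [s4.1, s4.2]
      · constructor <;> linarith [s4.1, s4.2]

end Pool.Agent.Helper718_bisection
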