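import Pool.Agent.Helper718_bisection.Main

namespace Pool.Agent.Helper718_bisection

open Finset

variable {V : Type*} [DecidableEq V] [Fintype V]

omit [DecidableEq V] [Fintype V] in
lemma nonneg_form {A : V → V → ℤ} (hA : ∀ u v, A u v = A v u) (hAn : ∀ u v, 0 ≤ A u v)
    (W : Finset V) {σ : V → ℤ} (h : IsSign σ) {t : ℤ} (ht : t = 1 ∨ t = -1) :
    0 ≤ (∑ u ∈ W, ∑ v ∈ W, A u v) + 2 * t * (∑ v ∈ W, σ v * ∑ u ∈ W, A v u) + Q A W σ := by
  have h1 : 0 ≤ ∑ u ∈ W, ∑ v ∈ W, A u v * (1 + t * σ u) * (1 + t * σ v) := by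
    refine Finset.sum_nonneg fun u _ => Finset.sum_nonneg fun v _ => ?_
    have a1 : 0 ≤ 1 + t * σ u := by
      rcases ht with rfl | rfl <;> rcases h u with h | h <;> simp [h]
    have a2 : 0 ≤ 1 + t * σ v := by
      rcases ht with rfl | rfl <;> rcases h v with h | h <;> simp [h]
    exact mul_nonneg (mul_nonneg (hAn u v) a1) a2
  have htt : t * t = 1 := by rcases ht with rfl | rfl <;> norm_num
  have e1 : ∀ u v, A u v * (1 + t * σ u) * (1 + t * σ v)
      = A u v + t * (A u v * σ u) + t * (A u v * σ v) + A u v * σ u * σ v := by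
    intro u v
    have : A u v * (1 + t * σ u) * (1 + t * σ v)
      = A u v + t * (A u v * σ u) + t * (A u v * σ v) + (t * t) * (A u v * σ u * σ v) := by ring
    rw [this, htt]; ring
  simp only [e1, Finset.sum_add_distrib, ← Finset.mul_sum] at h1
  have e2 : ∑ u ∈ W, ∑ v ∈ W, A u v * σ u = ∑ v ∈ W, σ v * ∑ u ∈ W, A v u := by
    refine Finset.sum_congr rfl fun u _ => ?_
    rw [Finset.mul_sum]
    exact Finset.sum_congr rfl fun v _ => by ring
  have e3 : ∑ u ∈ W, ∑ v ∈ W, A u v * σ v = ∑ v ∈ W, σ v * ∑ u ∈ W, A v u := by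
    rw [Finset.sum_comm]
    refine Finset.sum_congr rfl fun u _ => ?_
    rw [Finset.mul_sum]
    exact Finset.sum_congr rfl fun v _ => by rw [hA]; ring
  rw [e2, e3] at h1
  unfold Q
  linarith

/-- The case of one dominating vertex `a`. -/
lemma one_hub {A : V → V → ℤ} (hA : ∀ u v, A u v = A v u)
    (hA0 : ∀ u, A u u = 0) (hA1 : ∀ u v, A u v = 0 ∨ A u v = 1)
    (hcard : Even (Fintype.card V)) (Z : Finset V) (hZ : ∀ z ∈ Z, ∀ v, A z v = 0)
    (hdeg : ∀ v, v ∉ Z → 2 ≤ ∑ u, A v u) {a b : V} (hab : a ≠ b)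
    (hb : ∀ v, v ≠ a → ∑ u, A v u ≤ ∑ u, A b u)
    (hbig : M2 A < 6 * ((∑ u, A a u) - ∑ u, A b u)) : Judicious A := by
  classical
  have hAn : ∀ u v, 0 ≤ A u v := fun u v => by rcases hA1 u v with h | h <;> simp [h]
  set W := ({a, b} : Finset V)ᶜ with hW
  have hmem : ∀ v, v ∈ W ↔ v ≠ a ∧ v ≠ b := by
    intro v; simp [hW]
  have hrow : ∀ v, ∑ u, A v u = A v a + A v b + ∑ u ∈ W, A v u := fun v =>
    sum_univ_pair hab _
  have hdb0 : 0 ≤ ∑ u, A b u := Finset.sum_nonneg fun u _ => hAn b u
  set β : ℕ := (∑ u, A b u).toNat with hβ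
  have hβ' : (β : ℤ) = ∑ u, A b u := Int.toNat_of_nonneg hdb0
  set w : V → ℤ := fun u => 2 * (if u ∈ Z then 1 else 0) + 2 * A b u with hw
  obtain ⟨σ, γ, g1, g2, g3, g4⟩ := gain hA hA0 hA1 W (card_compl_pair hab hcard) w
    (fun u => by
      have := hAn b u
      simp only [hw]
      split_ifs <;> linarith)
    (fun u hu h0 => by
      simp only [hw]
      by_cases hz : u ∈ Z
      · have := hAn b u
        simp only [hz, if_true]; linarith
      · have h1 := hdeg u hz
        rw [hrow u, h0] at h1
        have h2 := hA1 u a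
        have h3 := hA1 u b
        rw [hA b u]
        simp only [hz, if_false]
        rcases h2 with h2 | h2 <;> rcases h3 with h3 | h3 <;> rw [h2, h3] at h1 <;> omega)
    β (fun u hu => by
      rw [hβ']
      have h1 := hb u ((hmem u).mp hu).1
      have h2 := hAn u a
      have h3 := hAn u b
      rw [hrow u] at h1
      linarith)
  -- abbreviations
  set D' := ∑ u ∈ W, ∑ v ∈ W, A u v with hD'
  set αW := ∑ v ∈ W, A a v with hαW
  set βW := ∑ v ∈ W, A b v with hβW
  have ha : ∑ u, A a u = A a b + αW := by rw [hrow a, hA0]; ring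
  have hbb : ∑ u, A b u = A a b + βW := by rw [hrow b, hA0, hA b a]; ring
  have hrowW : ∀ v, ∑ u, A v u = A a v + A b v + ∑ u ∈ W, A v u := by
    intro v; rw [hrow v, hA v a, hA v b]
  have hM : M2 A = 2 * (A a b + αW) + 2 * βW + D' := by
    unfold M2
    rw [sum_univ_pair hab, ha, hbb]
    have : ∑ v ∈ ({a, b} : Finset V)ᶜ, ∑ u, A v u = αW + βW + D' := by
      rw [← hW, hαW, hβW, hD', ← Finset.sum_add_distrib, ← Finset.sum_add_distrib]
      exact Finset.sum_congr rfl fun v _ => hrowW v
    rw [this]; ring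
  have hζ : αW + ∑ v ∈ W, (if v ∈ Z then (1:ℤ) else 0) ≤ W.card := by
    rw [hαW, ← Finset.sum_add_distrib, Finset.card_eq_sum_ones]
    push_cast
    refine Finset.sum_le_sum fun v _ => ?_
    split_ifs with hz
    · rw [hA a v, hZ v hz a]; simp
    · rcases hA1 a v with h | h <;> simp [h]
  have hwsum : ∑ u ∈ W, w u = 2 * (∑ v ∈ W, (if v ∈ Z then (1:ℤ) else 0)) + 2 * βW := by
    simp only [hw, Finset.sum_add_distrib, ← Finset.mul_sum]
    rw [hβW]
  have hαβ : 0 ≤ βW := Finset.sum_nonneg fun v _ => hAn b v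
  have hab0 := hAn a b
  set q₀ := Q A W σ with hq₀
  set ca := ∑ v ∈ W, A a v * σ v with hca
  set cb := ∑ v ∈ W, A b v * σ v with hcb
  set X' := ∑ v ∈ W, σ v * ∑ u ∈ W, A v u with hX'
  have hX : ∑ v ∈ W, σ v * ∑ u, A v u = ca + cb + X' := by
    rw [hca, hcb, hX', ← Finset.sum_add_distrib, ← Finset.sum_add_distrib]
    refine Finset.sum_congr rfl fun v _ => ?_
    rw [hrowW v]; ring
  have hcb1 : cb ≤ βW := by
    refine Finset.sum_le_sum fun v _ => ?_
    have := hAn b v
    rcases g1 v with h | h <;> rw [h] <;> linarith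
  have hcb2 : -βW ≤ cb := by
    rw [hβW, ← Finset.sum_neg_distrib]
    refine Finset.sum_le_sum fun v _ => ?_
    have := hAn b v
    rcases g1 v with h | h <;> rw [h] <;> linarith
  have hγ : (0:ℤ) ≤ γ := Int.natCast_nonneg γ
  -- for each orientation
  have main : ∀ t : ℤ, (t = 1 ∨ t = -1) → t * (2 * (ca - cb) + 2 * (ca + cb + X')) ≤ 0 →
      Judicious A := by
    intro t ht hle
    refine ⟨ext a b t σ, ext_isSign ht g1, ext_sum hab t σ g2, ?_, ?_⟩
    · rw [ext_Q hab hA hA0 ht, ext_L hab, ← hW, hX, ← hca, ← hcb, ← hq₀]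
      have e1 : 3 * (q₀ - 2 * A a b + 2 * t * (ca - cb)) + 6 * ((∑ u, A a u) - (∑ u, A b u)
          + t * (ca + cb + X')) = 3 * q₀ - 6 * A a b + 6 * ((∑ u, A a u) - (∑ u, A b u))
          + 3 * (t * (2 * (ca - cb) + 2 * (ca + cb + X'))) := by ring
      rw [e1, ha, hbb]
      rw [hβ', hbb, hwsum] at g4
      rw [hM]
      linarith
    · rw [ext_Q hab hA hA0 ht, ext_L hab, ← hW, hX, ← hca, ← hcb, ← hq₀]
      have n1 := nonneg_form hA hAn W g1 (t := t) ht
      have n2 := nonneg_form hA hAn W g1 (t := 1) (Or.inl rfl)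
      rw [← hX', ← hq₀, ← hD'] at n1 n2
      have n3 : -(t * cb) ≤ βW := by
        rcases ht with rfl | rfl
        · linarith
        · linarith
      have n4 : -(2 * t * X') ≤ D' + q₀ := by
        have n5 := nonneg_form hA hAn W g1 (t := t) ht
        rw [← hX', ← hq₀, ← hD'] at n5
        linarith
      have e1 : 3 * (q₀ - 2 * A a b + 2 * t * (ca - cb)) - 6 * ((∑ u, A a u) - (∑ u, A b u)
          + t * (ca + cb + X')) = 3 * q₀ - 6 * A a b - 6 * ((∑ u, A a u) - (∑ u, A b u))
          + 12 * (-(t * cb)) + 3 * (-(2 * t * X')) := by ring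
      rw [e1, ha, hbb]
      rw [hM, ha, hbb] at hbig
      rw [hM]
      linarith
  rcases le_total (2 * (ca - cb) + 2 * (ca + cb + X')) 0 with h | h
  · exact main 1 (Or.inl rfl) (by linarith)
  · exact main (-1) (Or.inr rfl) (by linarith)

/-- The main combinatorial theorem, for an even number of vertices, those outside `Z` having
degree at least two and those in `Z` being isolated. -/
theorem core {A : V → V → ℤ} (hA : ∀ u v, A u v = A v u)
    (hA0 : ∀ u, A u u = 0) (hA1 : ∀ u v, A u v = 0 ∨ A u v = 1)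
    (hcard : Even (Fintype.card V)) (Z : Finset V) (hZ : ∀ z ∈ Z, ∀ v, A z v = 0)
    (hdeg : ∀ v, v ∉ Z → 2 ≤ ∑ u, A v u) : Judicious A := by
  classical
  have hAn : ∀ u v, 0 ≤ A u v := fun u v => by rcases hA1 u v with h | h <;> simp [h]
  have hM2 : 0 ≤ M2 A := Finset.sum_nonneg fun v _ => Finset.sum_nonneg fun u _ => hAn v u
  rcases isEmpty_or_nonempty V with hemp | hnon
  · refine ⟨fun _ => 1, fun _ => Or.inl rfl, by simp, ?_, ?_⟩ <;> simp [Q, L, M2]
  · obtain ⟨a, -, ha⟩ := Finset.exists_max_image (univ : Finset V) (fun v => ∑ u, A v u)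
      Finset.univ_nonempty
    have ha' : ∀ v, ∑ u, A v u ≤ ∑ u, A a u := fun v => ha v (Finset.mem_univ v)
    have hc1 : (univ.erase a : Finset V).Nonempty := by
      rw [← Finset.card_pos, Finset.card_erase_of_mem (Finset.mem_univ a), Finset.card_univ]
      have : 0 < Fintype.card V := Fintype.card_pos
      obtain ⟨k, hk⟩ := hcard
      omega
    obtain ⟨b, hbm, hb⟩ := Finset.exists_max_image (univ.erase a : Finset V)
      (fun v => ∑ u, A v u) hc1
    have hab : a ≠ b := fun h => by simp [← h] at hbm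
    have hb' : ∀ v, v ≠ a → ∑ u, A v u ≤ ∑ u, A b u := fun v hv =>
      hb v (Finset.mem_erase.mpr ⟨hv, Finset.mem_univ v⟩)
    rcases lt_or_ge (M2 A) (6 * ((∑ u, A a u) - ∑ u, A b u)) with hbig | hsmall
    · exact one_hub hA hA0 hA1 hcard Z hZ hdeg hab hb' hbig
    · have hdab : 0 ≤ (∑ u, A a u) - ∑ u, A b u := by
        have := ha' b; linarith
      have hAab := hAn a b
      -- degrees of the others
      have hthree : ∀ v, v ≠ a → v ≠ b → 6 * ∑ u, A v u ≤ M2 A + 6 := by
        intro v hva hvb
        have h1 := three_degrees hA hA0 hA1 hab hva.symm hvb.symm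
        have h2 := hb' v hva
        have h3 := ha' v
        have h4 : A a b ≤ 1 := by rcases hA1 a b with h | h <;> simp [h]
        have h5 : A b v ≤ 1 := by rcases hA1 b v with h | h <;> simp [h]
        have h6 : A a v ≤ 1 := by rcases hA1 a v with h | h <;> simp [h]
        linarith
      rcases Z.eq_empty_or_nonempty with hZe | hZne
      · -- no isolated vertex
        refine split_pair hA hA0 hA1 hcard hab 2 ?_ ?_
        · intro v hva hvb
          refine ⟨hdeg v (by simp [hZe]), ?_⟩
          have := hthree v hva hvb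
          linarith
        · rw [abs_of_nonneg hdab]; linarith
      · -- one isolated vertex
        have hn : ∀ v, 0 ≤ ∑ u, A v u := fun v => Finset.sum_nonneg fun u _ => hAn v u
        rcases hA1 a b with hab0 | hab1
        · by_cases hc : ∀ v, v ≠ a → v ≠ b → 6 * ∑ u, A v u ≤ M2 A
          · refine split_pair hA hA0 hA1 hcard hab 0 ?_ ?_
            · intro v hva hvb
              refine ⟨hn v, ?_⟩
              have := hc v hva hvb
              linarith
            · rw [abs_of_nonneg hdab]; linarith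
          · push Not at hc
            obtain ⟨c, hca, hcb, hcbig⟩ := hc
            have t1 := three_degrees hA hA0 hA1 hab hca.symm hcb.symm
            have t2 := hb' c hca
            have t3 := ha' c
            have t4 := ha' b
            rcases hA1 a c with hac0 | hac1
            · rcases hA1 b c with hbc0 | hbc1
              · exfalso
                rw [hab0, hac0, hbc0] at t1
                linarith
              · rw [hab0, hac0, hbc1] at t1
                refine split_pair hA hA0 hA1 hcard hcb.symm 0 ?_ ?_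
                · intro v hvb hvc
                  refine ⟨hn v, ?_⟩
                  rw [hbc1]
                  have h1 := ha' v
                  linarith
                · rw [abs_of_nonneg (by linarith), hbc1]
                  linarith
            · rw [hab0, hac1] at t1
              have hbc : A b c ≤ 1 := by rcases hA1 b c with h | h <;> simp [h]
              refine split_pair hA hA0 hA1 hcard hca.symm 0 ?_ ?_
              · intro v hva hvc
                refine ⟨hn v, ?_⟩
                rw [hac1]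
                have h1 := hb' v hva
                linarith
              · rw [abs_of_nonneg (by linarith), hac1]
                linarith
        · refine split_pair hA hA0 hA1 hcard hab 0 ?_ ?_
          · intro v hva hvb
            refine ⟨hn v, ?_⟩
            have := hthree v hva hvb
            rw [hab1]
            linarith
          · rw [abs_of_nonneg hdab, hab1]; linarith

end Pool.Agent.Helper718_bisection
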