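import Pool.Agent.Helper718_bisection.Match

namespace Pool.Agent.Helper718_bisection

open Finset

variable {V : Type*} [DecidableEq V]

/-- A unique neighbour inside `W`. -/
lemma unique_nbr {A : V → V → ℤ} (hA1 : ∀ u v, A u v = 0 ∨ A u v = 1) {W : Finset V} {u : V}
    (h : ∑ v ∈ W, A u v = 1) : ∃ x ∈ W, A u x = 1 ∧ ∀ y ∈ W, y ≠ x → A u y = 0 := by
  have hex : ∃ x ∈ W, A u x = 1 := by
    by_contra hcon
    push Not at hcon
    have : ∑ v ∈ W, A u v = 0 := Finset.sum_eq_zero fun v hv =>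
      (hA1 u v).resolve_right (hcon v hv)
    omega
  obtain ⟨x, hx, hx1⟩ := hex
  refine ⟨x, hx, hx1, ?_⟩
  intro y hy hyx
  rcases hA1 u y with h0 | h1
  · exact h0
  · exfalso
    have hsub : ({x, y} : Finset V) ⊆ W := by
      intro z hz
      simp only [Finset.mem_insert, Finset.mem_singleton] at hz
      rcases hz with h | h
      · rw [h]; exact hx
      · rw [h]; exact hy
    have h2 : ∑ v ∈ ({x, y} : Finset V), A u v ≤ ∑ v ∈ W, A u v :=
      Finset.sum_le_sum_of_subset_of_nonneg hsub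
        fun v _ _ => by rcases hA1 u v with h | h <;> simp [h]
    rw [Finset.sum_pair hyx.symm] at h2
    omega

/-- A set of even size has a balanced sign function of small energy, with an explicit gain. -/
lemma gain {A : V → V → ℤ} (hA : ∀ u v, A u v = A v u) (hA0 : ∀ u, A u u = 0)
    (hA1 : ∀ u v, A u v = 0 ∨ A u v = 1) (W : Finset V) (hW : Even W.card) (w : V → ℤ)
    (hw0 : ∀ u, 0 ≤ w u) (hw2 : ∀ u ∈ W, ∑ v ∈ W, A u v = 0 → 2 ≤ w u) (β : ℕ)
    (hβ : ∀ u ∈ W, ∑ v ∈ W, A u v ≤ β) :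
    ∃ (σ : V → ℤ) (γ : ℕ), IsSign σ ∧ ∑ v ∈ W, σ v = 0 ∧ Q A W σ ≤ -2 * γ ∧
      4 * (W.card : ℤ) ≤ (∑ u ∈ W, ∑ v ∈ W, A u v) + 6 * γ + 2 * (∑ u ∈ W, w u) + 2 * β := by
  classical
  have hAn : ∀ u v, 0 ≤ A u v := fun u v => by rcases hA1 u v with h | h <;> simp [h]
  obtain ⟨S, s, hSW, hgood, hind⟩ := exists_maximal_matching hA hA0 hA1 _ W rfl
  set U := W \ S with hU
  set T := U.filter (fun u => ∑ v ∈ W, A u v = 1) with hT
  have hTU : T ⊆ U := Finset.filter_subset _ _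
  have hUW : U ⊆ W := Finset.sdiff_subset
  have hSU : Disjoint S U := Finset.disjoint_sdiff
  have hSUW : S ∪ U = W := Finset.union_sdiff_of_subset hSW
  -- the neighbour function
  have hnb : ∀ u, ∃ x, u ∈ T → x ∈ S ∧ A u x = 1 ∧ ∀ y ∈ W, y ≠ x → A u y = 0 := by
    intro u
    by_cases hu : u ∈ T
    · have h1 : ∑ v ∈ W, A u v = 1 := (Finset.mem_filter.mp hu).2
      obtain ⟨x, hx, hx1, hx2⟩ := unique_nbr hA1 h1
      refine ⟨x, fun _ => ⟨?_, hx1, hx2⟩⟩
      by_contra hxS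
      have hxU : x ∈ U := Finset.mem_sdiff.mpr ⟨hx, hxS⟩
      have := hind u (hTU hu) x hxU
      omega
    · exact ⟨u, fun h => absurd h hu⟩
  choose f hf using hnb
  have hfib : ∀ x ∈ S, (T.filter fun u => f u = x).card ≤ β := by
    intro x hx
    have h1 : ((T.filter fun u => f u = x).card : ℤ) ≤ ∑ v ∈ W, A x v := by
      have h2 : ((T.filter fun u => f u = x).card : ℤ) = ∑ v ∈ T.filter (fun u => f u = x), A x v := by
        rw [Finset.card_eq_sum_ones]
        push_cast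
        refine Finset.sum_congr rfl fun v hv => ?_
        obtain ⟨hv1, hv2⟩ := Finset.mem_filter.mp hv
        have := (hf v hv1).2.1
        rw [hv2, hA] at this
        exact this.symm
      rw [h2]
      exact Finset.sum_le_sum_of_subset_of_nonneg
        (fun v hv => hUW (hTU (Finset.mem_filter.mp hv).1)) fun v _ _ => hAn x v
    have h3 := hβ x (hSW hx)
    exact_mod_cast h1.trans h3
  obtain ⟨T', q, σ₁, g1, g2, g3, g4, g5, g6, g7⟩ := leaves hgood f β _ T rfl
    (Finset.disjoint_of_subset_right hTU hSU) (fun u hu => (hf u hu).1) hfib A hA hA0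
    (fun u v => le_refl _)
  have hT'U : T' ⊆ U := g1.trans hTU
  have hST' : Disjoint S T' := Finset.disjoint_of_subset_right hT'U hSU
  -- energy of the first part
  have hE1 : Q A (S ∪ T') σ₁ ≤ -2 * s - 2 * q := by
    rw [Q_union hA hST']
    have e1 : Q A T' σ₁ = 0 := by
      unfold Q
      refine Finset.sum_eq_zero fun u hu => Finset.sum_eq_zero fun v hv => ?_
      rw [hind u (hT'U hu) v (hT'U hv)]; ring
    have e2 : ∑ u ∈ S, ∑ v ∈ T', A u v * σ₁ u * σ₁ v = ∑ u ∈ T', σ₁ u * σ₁ (f u) := by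
      rw [Finset.sum_comm]
      refine Finset.sum_congr rfl fun v hv => ?_
      obtain ⟨k1, k2, k3⟩ := hf v (g1 hv)
      rw [Finset.sum_eq_single (f v)]
      · rw [hA, k2]; ring
      · intro u hu huv
        rw [hA, k3 u (hSW hu) huv]; ring
      · intro h; exact absurd k1 h
    rw [e1, e2]
    linarith
  -- the second part
  set W₁ := S ∪ T' with hW₁
  have hW₁W : W₁ ⊆ W := Finset.union_subset hSW (hT'U.trans hUW)
  have hW₁card : W₁.card = 2 * (s + q) := by
    rw [hW₁, Finset.card_union_of_disjoint hST', hgood.1, g2]; ring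
  obtain ⟨k, hk⟩ := hW
  have hle : W₁.card ≤ W.card := Finset.card_le_card hW₁W
  have hW₂card : (W \ W₁).card = 2 * (k - (s + q)) := by
    rw [Finset.card_sdiff_of_subset hW₁W]; omega
  obtain ⟨σ₂, t1, t2, t3, _⟩ := even_set hA hA0 hAn (fun _ => 0) _ (W \ W₁) hW₂card 0 0
    (fun _ _ => le_refl _) (fun _ _ => le_refl _) (le_refl _)
  obtain ⟨σ, t, r1, r2, r3, r4, r5⟩ := merge hA (Finset.disjoint_sdiff (s := W₁) (t := W)) g4 t1
  rw [Finset.union_sdiff_of_subset hW₁W] at r5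
  refine ⟨σ, s + q, r1, ?_, ?_, ?_⟩
  · rw [← Finset.union_sdiff_of_subset hW₁W, Finset.sum_union Finset.disjoint_sdiff,
      Finset.sum_congr rfl r3, Finset.sum_congr rfl r4, ← Finset.mul_sum, t2, hW₁,
      Finset.sum_union hST', g5, g6]
    ring
  · push_cast
    linarith
  · -- counting
    have hWc : W.card = 2 * s + U.card := by
      rw [← hSUW, Finset.card_union_of_disjoint hSU, hgood.1]
    have hD : (∑ u ∈ W, ∑ v ∈ W, A u v) = (∑ u ∈ S, ∑ v ∈ S, A u v)
        + 2 * ∑ u ∈ U, ∑ v ∈ W, A u v := by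
      have e0 : ∑ u ∈ U, ∑ v ∈ W, A u v = ∑ u ∈ U, ∑ v ∈ S, A u v := by
        refine Finset.sum_congr rfl fun u hu => ?_
        rw [← hSUW, Finset.sum_union hSU]
        have : ∑ v ∈ U, A u v = 0 := Finset.sum_eq_zero fun v hv => hind u hu v hv
        rw [this, add_zero]
      have e1 : ∑ u ∈ W, ∑ v ∈ W, A u v = ∑ u ∈ S, ∑ v ∈ W, A u v + ∑ u ∈ U, ∑ v ∈ W, A u v := by
        conv_lhs => rw [← hSUW, Finset.sum_union hSU, hSUW]
      have e2 : ∑ u ∈ S, ∑ v ∈ W, A u v = ∑ u ∈ S, ∑ v ∈ S, A u v + ∑ u ∈ S, ∑ v ∈ U, A u v := by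
        rw [← Finset.sum_add_distrib]
        refine Finset.sum_congr rfl fun u _ => ?_
        rw [← hSUW, Finset.sum_union hSU]
      have e3 : ∑ u ∈ S, ∑ v ∈ U, A u v = ∑ u ∈ U, ∑ v ∈ S, A u v := by
        rw [Finset.sum_comm]
        exact Finset.sum_congr rfl fun u _ => Finset.sum_congr rfl fun v _ => hA v u
      rw [e1, e2, e3, e0]; ring
    have hU2 : ∀ u ∈ U, 2 - ∑ v ∈ W, A u v ≤ w u + (if ∑ v ∈ W, A u v = 1 then 1 else 0) := by
      intro u hu
      have h0 : 0 ≤ ∑ v ∈ W, A u v := Finset.sum_nonneg fun v _ => hAn u v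
      have h1 := hw0 u
      have h2 := hw2 u (hUW hu)
      split_ifs with h3
      · omega
      · by_cases h4 : ∑ v ∈ W, A u v = 0
        · have := h2 h4
          omega
        · omega
    have hsum := Finset.sum_le_sum hU2
    rw [Finset.sum_sub_distrib, Finset.sum_add_distrib] at hsum
    have hTc : ∑ u ∈ U, (if ∑ v ∈ W, A u v = 1 then (1 : ℤ) else 0) = T.card := by
      rw [hT, Finset.card_filter]
      push_cast
      rfl
    rw [hTc, Finset.sum_const, nsmul_eq_mul] at hsum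
    have hwU : ∑ u ∈ U, w u ≤ ∑ u ∈ W, w u :=
      Finset.sum_le_sum_of_subset_of_nonneg hUW fun u _ _ => hw0 u
    have hTq : (T.card : ℤ) ≤ 2 * q + β := by exact_mod_cast g3
    have hgs := hgood.2.1
    rw [hD, hWc]
    push_cast
    linarith

end Pool.Agent.Helper718_bisection
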