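import Pool.Agent.Helper718_bisection.Final

namespace Pool.Agent.Helper718_bisection

open Finset

/-- The adjacency matrix with integer entries. -/
noncomputable def adj {V : Type*} (G : SimpleGraph V) : V → V → ℤ := by
  classical exact fun u v => if G.Adj u v then 1 else 0

lemma adj_symm {V : Type*} (G : SimpleGraph V) (u v : V) : adj G u v = adj G v u := by
  unfold adj
  by_cases h : G.Adj u v
  · simp [h, h.symm]
  · have h' : ¬ G.Adj v u := fun h2 => h h2.symm
    simp [h, h']

lemma adj_self {V : Type*} (G : SimpleGraph V) (u : V) : adj G u u = 0 := by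
  simp [adj]

lemma adj_zero_one {V : Type*} (G : SimpleGraph V) (u v : V) : adj G u v = 0 ∨ adj G u v = 1 := by
  unfold adj
  by_cases h : G.Adj u v <;> simp [h]

lemma sum_adj {V : Type*} [Fintype V] (G : SimpleGraph V) (v : V) :
    ∑ u, adj G v u = ((G.neighborSet v).ncard : ℤ) := by
  classical
  unfold adj
  rw [← Nat.card_coe_set_eq, Nat.card_eq_fintype_card, SimpleGraph.card_neighborSet_eq_degree,
    ← SimpleGraph.card_neighborFinset_eq_degree, SimpleGraph.neighborFinset_eq_filter,
    Finset.card_filter]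
  push_cast
  rfl

/-- Twice the number of edges inside `S` as a double sum. -/
lemma two_mul_edges {V : Type*} [Fintype V] (G : SimpleGraph V) (S : Set V)
    [DecidablePred (· ∈ S)] :
    2 * (({e ∈ G.edgeSet | ∀ v ∈ e, v ∈ S} : Set (Sym2 V)).ncard : ℤ)
      = ∑ u, ∑ v, if u ∈ S ∧ v ∈ S then adj G u v else 0 := by
  classical
  let H : SimpleGraph V :=
    { Adj := fun u v => G.Adj u v ∧ u ∈ S ∧ v ∈ S
      symm := ⟨fun u v h => ⟨h.1.symm, h.2.2, h.2.1⟩⟩
      loopless := ⟨fun u h => G.loopless.irrefl u h.1⟩ }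
  have h1 : ({e ∈ G.edgeSet | ∀ v ∈ e, v ∈ S} : Set (Sym2 V)) = H.edgeSet := by
    ext e
    induction e using Sym2.ind with
    | _ x y =>
      simp [H]
  rw [h1, ← Nat.card_coe_set_eq, Nat.card_eq_fintype_card, ← SimpleGraph.edgeFinset_card]
  have h2 := H.sum_degrees_eq_twice_card_edges
  have h3 : (2 * (H.edgeFinset.card : ℤ)) = ∑ v, (H.degree v : ℤ) := by
    rw [← Nat.cast_sum, h2]; push_cast; ring
  rw [h3]
  refine Finset.sum_congr rfl fun u _ => ?_
  rw [← SimpleGraph.card_neighborFinset_eq_degree, SimpleGraph.neighborFinset_eq_filter,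
    Finset.card_filter]
  push_cast
  refine Finset.sum_congr rfl fun v _ => ?_
  unfold adj
  by_cases h : G.Adj u v <;> by_cases h' : u ∈ S <;> by_cases h'' : v ∈ S <;> simp [H, h, h', h'']

end Pool.Agent.Helper718_bisection
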