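import Pool.Agent.Helper718_bisection.Gain

namespace Pool.Agent.Helper718_bisection

open Finset

variable {V : Type*} [DecidableEq V] [Fintype V]

/-- The linear form `∑ σ(v) d(v)`, where `d(v)` is the row sum of `A`. -/
def L (A : V → V → ℤ) (σ : V → ℤ) : ℤ := ∑ v, σ v * ∑ u, A v u

/-- The sum of all entries (twice the number of edges). -/
def M2 (A : V → V → ℤ) : ℤ := ∑ v, ∑ u, A v u

lemma sum_univ_pair {p p' : V} (hne : p ≠ p') (g : V → ℤ) :
    ∑ v, g v = g p + g p' + ∑ v ∈ ({p, p'} : Finset V)ᶜ, g v := by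
  rw [← Finset.sum_add_sum_compl ({p, p'} : Finset V) g, Finset.sum_pair hne]

/-- The sign function that is `1` at `p`, `-1` at `p'` and `t σ` elsewhere. -/
def ext (p p' : V) (t : ℤ) (σ : V → ℤ) : V → ℤ :=
  fun v => if v = p then 1 else if v = p' then -1 else t * σ v

omit [Fintype V] in
lemma ext_isSign {p p' : V} {t : ℤ} (ht : t = 1 ∨ t = -1) {σ : V → ℤ} (h : IsSign σ) :
    IsSign (ext p p' t σ) := by
  intro v
  unfold ext
  split_ifs
  · simp
  · simp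
  · rcases ht with rfl | rfl <;> rcases h v with h | h <;> simp [h]

lemma ext_sum {p p' : V} (hne : p ≠ p') (t : ℤ) (σ : V → ℤ)
    (h : ∑ v ∈ ({p, p'} : Finset V)ᶜ, σ v = 0) : ∑ v, ext p p' t σ v = 0 := by
  rw [sum_univ_pair hne]
  have e1 : ext p p' t σ p = 1 := by simp [ext]
  have e2 : ext p p' t σ p' = -1 := by simp [ext, hne.symm]
  have e3 : ∑ v ∈ ({p, p'} : Finset V)ᶜ, ext p p' t σ v
      = ∑ v ∈ ({p, p'} : Finset V)ᶜ, t * σ v := by
    refine Finset.sum_congr rfl fun v hv => ?_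
    simp only [Finset.mem_compl, Finset.mem_insert, Finset.mem_singleton, not_or] at hv
    simp [ext, hv.1, hv.2]
  rw [e1, e2, e3, ← Finset.mul_sum, h]; ring

lemma ext_L {p p' : V} (hne : p ≠ p') (A : V → V → ℤ) (t : ℤ) (σ : V → ℤ) :
    L A (ext p p' t σ) = (∑ u, A p u) - (∑ u, A p' u)
      + t * ∑ v ∈ ({p, p'} : Finset V)ᶜ, σ v * ∑ u, A v u := by
  unfold L
  rw [sum_univ_pair hne]
  have e1 : ext p p' t σ p = 1 := by simp [ext]
  have e2 : ext p p' t σ p' = -1 := by simp [ext, hne.symm]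
  have e3 : ∑ v ∈ ({p, p'} : Finset V)ᶜ, ext p p' t σ v * ∑ u, A v u
      = t * ∑ v ∈ ({p, p'} : Finset V)ᶜ, σ v * ∑ u, A v u := by
    rw [Finset.mul_sum]
    refine Finset.sum_congr rfl fun v hv => ?_
    simp only [Finset.mem_compl, Finset.mem_insert, Finset.mem_singleton, not_or] at hv
    simp only [ext, hv.1, hv.2, if_false]
    ring
  rw [e1, e2, e3]; ring

lemma ext_Q {p p' : V} (hne : p ≠ p') {A : V → V → ℤ} (hA : ∀ u v, A u v = A v u)
    (hA0 : ∀ u, A u u = 0) {t : ℤ} (ht : t = 1 ∨ t = -1) (σ : V → ℤ) :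
    Q A univ (ext p p' t σ) = Q A ({p, p'} : Finset V)ᶜ σ - 2 * A p p'
      + 2 * t * ((∑ v ∈ ({p, p'} : Finset V)ᶜ, A p v * σ v)
        - ∑ v ∈ ({p, p'} : Finset V)ᶜ, A p' v * σ v) := by
  have hun : ({p, p'} : Finset V) ∪ ({p, p'} : Finset V)ᶜ = univ := Finset.union_compl _
  rw [← hun, Q_union hA disjoint_compl_right]
  have e1 : ext p p' t σ p = 1 := by simp [ext]
  have e2 : ext p p' t σ p' = -1 := by simp [ext, hne.symm]
  have e3 : ∀ v ∈ ({p, p'} : Finset V)ᶜ, ext p p' t σ v = t * σ v := by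
    intro v hv
    simp only [Finset.mem_compl, Finset.mem_insert, Finset.mem_singleton, not_or] at hv
    simp [ext, hv.1, hv.2]
  rw [Q_pair hA hA0 hne, e1, e2, Q_congr e3, Q_smul ht, Finset.sum_pair hne, e1, e2]
  have e4 : ∑ v ∈ ({p, p'} : Finset V)ᶜ, A p v * 1 * ext p p' t σ v
      = t * ∑ v ∈ ({p, p'} : Finset V)ᶜ, A p v * σ v := by
    rw [Finset.mul_sum]
    refine Finset.sum_congr rfl fun v hv => ?_
    rw [e3 v hv]; ring
  have e5 : ∑ v ∈ ({p, p'} : Finset V)ᶜ, A p' v * -1 * ext p p' t σ v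
      = -(t * ∑ v ∈ ({p, p'} : Finset V)ᶜ, A p' v * σ v) := by
    rw [Finset.mul_sum, ← Finset.sum_neg_distrib]
    refine Finset.sum_congr rfl fun v hv => ?_
    rw [e3 v hv]; ring
  rw [e4, e5]
  ring

/-- What we want: a balanced sign function with both classes spanning few edges. -/
def Judicious (A : V → V → ℤ) : Prop :=
  ∃ σ : V → ℤ, IsSign σ ∧ ∑ v, σ v = 0 ∧ 3 * Q A univ σ + 6 * L A σ ≤ M2 A ∧
    3 * Q A univ σ - 6 * L A σ ≤ M2 A

lemma card_compl_pair {p p' : V} (hne : p ≠ p') (hcard : Even (Fintype.card V)) :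
    Even (({p, p'} : Finset V)ᶜ).card := by
  rw [Finset.card_compl, Finset.card_pair hne]
  obtain ⟨k, hk⟩ := hcard
  exact ⟨k - 1, by omega⟩

/-- Splitting the pair `p, p'` and then the rest greedily. -/
lemma split_pair {A : V → V → ℤ} (hA : ∀ u v, A u v = A v u)
    (hA0 : ∀ u, A u u = 0) (hA1 : ∀ u v, A u v = 0 ∨ A u v = 1)
    (hcard : Even (Fintype.card V)) {p p' : V} (hne : p ≠ p') (μ : ℤ)
    (h1 : ∀ v, v ≠ p → v ≠ p' → μ ≤ ∑ u, A v u ∧ 6 * ((∑ u, A v u) - μ) ≤ M2 A + 6 * A p p')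
    (h2 : 6 * |(∑ u, A p u) - ∑ u, A p' u| ≤ M2 A + 6 * A p p') : Judicious A := by
  have hAn : ∀ u v, 0 ≤ A u v := fun u v => by rcases hA1 u v with h | h <;> simp [h]
  have hM2 : 0 ≤ M2 A := Finset.sum_nonneg fun v _ => Finset.sum_nonneg fun u _ => hAn v u
  obtain ⟨k, hk⟩ := card_compl_pair hne hcard
  set W := ({p, p'} : Finset V)ᶜ with hW
  have hmem : ∀ v, v ∈ W ↔ v ≠ p ∧ v ≠ p' := by
    intro v; simp [hW]
  -- a bound for the spread
  have hR : ∃ (σ₀ : V → ℤ) (R : ℤ), IsSign σ₀ ∧ ∑ v ∈ W, σ₀ v = 0 ∧ Q A W σ₀ ≤ 0 ∧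
      |∑ v ∈ W, σ₀ v * ∑ u, A v u| ≤ R ∧ 6 * R ≤ M2 A + 6 * A p p' := by
    rcases W.eq_empty_or_nonempty with he | hne'
    · refine ⟨fun _ => 1, 0, fun _ => Or.inl rfl, by simp [he], by simp [Q, he],
        by simp [he], ?_⟩
      have := hAn p p'
      linarith
    · obtain ⟨c, hc, hcmax⟩ := Finset.exists_max_image W (fun v => ∑ u, A v u) hne'
      obtain ⟨c1, c2⟩ := (hmem c).mp hc
      obtain ⟨σ₀, s1, s2, s3, s4⟩ := even_set hA hA0 hAn (fun v => ∑ u, A v u) k W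
        (by omega) (∑ u, A c u) μ hcmax (fun v hv => (h1 v ((hmem v).mp hv).1
          ((hmem v).mp hv).2).1) (h1 c c1 c2).1
      exact ⟨σ₀, (∑ u, A c u) - μ, s1, s2, s3, s4, (h1 c c1 c2).2⟩
  obtain ⟨σ₀, R, s1, s2, s3, s4, s5⟩ := hR
  set X := ∑ v ∈ W, σ₀ v * ∑ u, A v u with hX
  set D := (∑ u, A p u) - ∑ u, A p' u with hD
  set c := (∑ v ∈ W, A p v * σ₀ v) - ∑ v ∈ W, A p' v * σ₀ v with hc
  have q1 := ext_Q hne hA hA0 (Or.inl rfl : (1:ℤ) = 1 ∨ (1:ℤ) = -1) σ₀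
  have q2 := ext_Q hne hA hA0 (Or.inr rfl : (-1:ℤ) = 1 ∨ (-1:ℤ) = -1) σ₀
  have l1 := ext_L hne A 1 σ₀
  have l2 := ext_L hne A (-1) σ₀
  rw [← hW, ← hc] at q1 q2
  rw [← hW, ← hX, ← hD] at l1 l2
  have b1 := ext_isSign (p := p) (p' := p') (Or.inl rfl : (1:ℤ) = 1 ∨ (1:ℤ) = -1) s1
  have b2 := ext_isSign (p := p) (p' := p') (Or.inr rfl : (-1:ℤ) = 1 ∨ (-1:ℤ) = -1) s1
  have z1 := ext_sum hne 1 σ₀ s2
  have z2 := ext_sum hne (-1) σ₀ s2
  have hDX : |D + X| + |D - X| ≤ 2 * max |D| |X| := by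
    rcases le_total 0 (D + X) with g1 | g1 <;> rcases le_total 0 (D - X) with g2 | g2 <;>
      simp only [abs_of_nonneg, abs_of_nonpos, g1, g2] <;>
      [have := le_max_left |D| |X|; have := le_max_right |D| |X|;
        have := le_max_right |D| |X|; have := le_max_left |D| |X|]
    · have := le_abs_self D; linarith
    · have := le_abs_self X; linarith
    · have := neg_abs_le X; linarith
    · have := neg_abs_le D; linarith
  have hmax : 6 * max |D| |X| ≤ M2 A + 6 * A p p' := by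
    rcases max_cases |D| |X| with h | h
    · rw [h.1]; exact h2
    · rw [h.1]; linarith
  by_cases hcase : 3 * Q A univ (ext p p' 1 σ₀) + 6 * |L A (ext p p' 1 σ₀)| ≤ M2 A
  · refine ⟨_, b1, z1, ?_, ?_⟩
    · have := le_abs_self (L A (ext p p' 1 σ₀)); linarith
    · have := neg_abs_le (L A (ext p p' 1 σ₀)); linarith
  · push Not at hcase
    have hcase2 : 3 * Q A univ (ext p p' (-1) σ₀) + 6 * |L A (ext p p' (-1) σ₀)| ≤ M2 A := by
      rw [q1, l1] at hcase
      rw [q2, l2]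
      have e1 : D + 1 * X = D + X := by ring
      have e2 : D + -1 * X = D - X := by ring
      rw [e1] at hcase
      rw [e2]
      linarith
    refine ⟨_, b2, z2, ?_, ?_⟩
    · have := le_abs_self (L A (ext p p' (-1) σ₀)); linarith
    · have := neg_abs_le (L A (ext p p' (-1) σ₀)); linarith

/-- The sum of three degrees. -/
lemma three_degrees {A : V → V → ℤ} (hA : ∀ u v, A u v = A v u)
    (hA0 : ∀ u, A u u = 0) (hA1 : ∀ u v, A u v = 0 ∨ A u v = 1) {a b c : V}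
    (hab : a ≠ b) (hac : a ≠ c) (hbc : b ≠ c) :
    2 * ((∑ u, A a u) + (∑ u, A b u) + ∑ u, A c u) ≤ M2 A + 2 * (A a b + A b c + A a c) := by
  have hAn : ∀ u v, 0 ≤ A u v := fun u v => by rcases hA1 u v with h | h <;> simp [h]
  have key : ∀ v, A a v + A b v + A c v ≤ ∑ u, A v u := by
    intro v
    have h1 : ∑ u ∈ ({a, b, c} : Finset V), A v u ≤ ∑ u, A v u :=
      Finset.sum_le_sum_of_subset_of_nonneg (Finset.subset_univ _) fun u _ _ => hAn v u
    have h2 : ∑ u ∈ ({a, b, c} : Finset V), A v u = A v a + A v b + A v c := by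
      rw [Finset.sum_insert (by simp [hab, hac]), Finset.sum_pair hbc]; ring
    rw [h2, hA v a, hA v b, hA v c] at h1
    linarith
  have h3 : ∑ v ∈ ({a, b, c} : Finset V)ᶜ, (A a v + A b v + A c v)
      ≤ ∑ v ∈ ({a, b, c} : Finset V)ᶜ, ∑ u, A v u := Finset.sum_le_sum fun v _ => key v
  have h4 := Finset.sum_add_sum_compl ({a, b, c} : Finset V) (fun v => ∑ u, A v u)
  have h5 := Finset.sum_add_sum_compl ({a, b, c} : Finset V) (fun v => A a v + A b v + A c v)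
  have e : ∀ g : V → ℤ, ∑ v ∈ ({a, b, c} : Finset V), g v = g a + g b + g c := by
    intro g
    rw [Finset.sum_insert (by simp [hab, hac]), Finset.sum_pair hbc]; ring
  rw [e] at h4 h5
  simp only [Finset.sum_add_distrib] at h5 h3
  rw [hA0, hA0, hA0, hA b a, hA c a, hA c b] at h5
  unfold M2
  linarith

end Pool.Agent.Helper718_bisection
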