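import Pool.Agent.Helper718_bisection.Core

namespace Pool.Agent.Helper718_bisection

open Finset

variable {V : Type*} [DecidableEq V]

/-- `Good A s S` : the set `S` of size `2 s` behaves like the vertex set of a matching with `s`
edges, in the strong sense that for every symmetric matrix `C` that dominates `A` there is a
balanced sign function on `S` of energy at most `- 2 s`. -/
def Good (A : V → V → ℤ) (s : ℕ) (S : Finset V) : Prop :=
  S.card = 2 * s ∧ (2 * (s : ℤ) ≤ ∑ u ∈ S, ∑ v ∈ S, A u v) ∧
  ∀ C : V → V → ℤ, (∀ u v, C u v = C v u) → (∀ u, C u u = 0) → (∀ u v, A u v ≤ C u v) →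
    ∃ σ : V → ℤ, IsSign σ ∧ ∑ v ∈ S, σ v = 0 ∧ Q C S σ ≤ -2 * s

omit [DecidableEq V] in
lemma good_empty (A : V → V → ℤ) : Good A 0 ∅ := by
  refine ⟨by simp, by simp, ?_⟩
  intro C _ _ _
  exact ⟨fun _ => 1, fun _ => Or.inl rfl, by simp, by simp [Q]⟩

lemma good_insert {A : V → V → ℤ} (hA : ∀ u v, A u v = A v u) (hAn : ∀ u v, 0 ≤ A u v)
    {s : ℕ} {S : Finset V} (h : Good A s S) {x y : V} (hxy : x ≠ y) (hx : x ∉ S) (hy : y ∉ S)
    (hxA : A x y = 1) : Good A (s + 1) (S ∪ {x, y}) := by
  obtain ⟨h1, h2, h3⟩ := h
  have hdis : Disjoint S {x, y} := by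
    rw [Finset.disjoint_left]
    intro v hv hv2
    simp only [Finset.mem_insert, Finset.mem_singleton] at hv2
    rcases hv2 with h | h
    · exact hx (h ▸ hv)
    · exact hy (h ▸ hv)
  refine ⟨?_, ?_, ?_⟩
  · rw [Finset.card_union_of_disjoint hdis, h1, Finset.card_pair hxy]; ring
  · rw [Finset.sum_union hdis, Finset.sum_pair hxy]
    have e1 : ∑ u ∈ S, ∑ v ∈ S, A u v ≤ ∑ u ∈ S, ∑ v ∈ S ∪ {x, y}, A u v := by
      refine Finset.sum_le_sum fun u _ => ?_
      exact Finset.sum_le_sum_of_subset_of_nonneg Finset.subset_union_left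
        fun v _ _ => hAn u v
    have e2 : A x y ≤ ∑ v ∈ S ∪ {x, y}, A x v :=
      Finset.single_le_sum (f := fun v => A x v) (fun v _ => hAn x v) (by simp)
    have e3 : A y x ≤ ∑ v ∈ S ∪ {x, y}, A y v :=
      Finset.single_le_sum (f := fun v => A y v) (fun v _ => hAn y v) (by simp)
    rw [hA y x] at e3
    push_cast
    linarith
  · intro C hC hC0 hAC
    obtain ⟨σ₁, s1, s2, s3⟩ := h3 C hC hC0 hAC
    obtain ⟨σ, t, g1, g2, g3, g4, g5⟩ := merge hC hdis s1 (pm_isSign y)
    have hσx : σ x = t := by
      rw [g4 x (by simp), pm_ne hxy]; ring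
    have hσy : σ y = -t := by
      rw [g4 y (by simp), pm_self]; ring
    refine ⟨σ, g1, ?_, ?_⟩
    · rw [Finset.sum_union hdis, Finset.sum_pair hxy, hσx, hσy,
        Finset.sum_congr rfl g3, s2]
      ring
    · rw [Q_pair hC hC0 hxy, pm_ne hxy, pm_self] at g5
      have := hAC x y
      push_cast
      linarith

/-- Every finite set contains a matched set whose complement is independent. -/
lemma exists_maximal_matching {A : V → V → ℤ} (hA : ∀ u v, A u v = A v u)
    (hA0 : ∀ u, A u u = 0) (hA1 : ∀ u v, A u v = 0 ∨ A u v = 1) :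
    ∀ (n : ℕ) (W : Finset V), W.card = n → ∃ (S : Finset V) (s : ℕ), S ⊆ W ∧ Good A s S ∧
      ∀ u ∈ W \ S, ∀ v ∈ W \ S, A u v = 0 := by
  intro n
  induction n using Nat.strong_induction_on with
  | _ n ih =>
    intro W hW
    by_cases hE : ∃ u ∈ W, ∃ v ∈ W, A u v ≠ 0
    · obtain ⟨x, hx, y, hy, hxy⟩ := hE
      have hne : x ≠ y := by
        rintro rfl; exact hxy (hA0 x)
      have hone : A x y = 1 := (hA1 x y).resolve_left hxy
      have hyx : y ∈ W.erase x := Finset.mem_erase.mpr ⟨hne.symm, hy⟩
      have hc : ((W.erase x).erase y).card < n := by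
        rw [← hW]
        exact lt_of_lt_of_le (Finset.card_erase_lt_of_mem hyx) (Finset.card_erase_le)
      obtain ⟨S, s, h1, h2, h3⟩ := ih _ hc ((W.erase x).erase y) rfl
      have hxS : x ∉ S := fun h => by
        have := h1 h
        simp at this
      have hyS : y ∉ S := fun h => by
        have := h1 h
        simp at this
      refine ⟨S ∪ {x, y}, s + 1, ?_, good_insert hA
        (fun u v => by rcases hA1 u v with h | h <;> simp [h]) h2 hne hxS hyS hone, ?_⟩
      · intro v hv
        simp only [Finset.mem_union, Finset.mem_insert, Finset.mem_singleton] at hv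
        rcases hv with h | h | h
        · exact Finset.mem_of_mem_erase (Finset.mem_of_mem_erase (h1 h))
        · rw [h]; exact hx
        · rw [h]; exact hy
      · have hsub : ∀ u ∈ W \ (S ∪ {x, y}), u ∈ ((W.erase x).erase y) \ S := by
          intro u hu
          simp only [Finset.mem_sdiff, Finset.mem_union, Finset.mem_insert,
            Finset.mem_singleton, not_or] at hu
          simp only [Finset.mem_sdiff, Finset.mem_erase]
          exact ⟨⟨hu.2.2.2, hu.2.2.1, hu.1⟩, hu.2.1⟩
        intro u hu v hv
        exact h3 u (hsub u hu) v (hsub v hv)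
    · push Not at hE
      refine ⟨∅, 0, by simp, good_empty A, ?_⟩
      intro u hu v hv
      simp only [Finset.sdiff_empty] at hu hv
      exact hE u hu v hv

/-- Tie leaves together in pairs with different neighbours. -/
lemma leaves {A : V → V → ℤ} {s : ℕ} {S : Finset V} (hS : Good A s S) (f : V → V) (β : ℕ) :
    ∀ (n : ℕ) (T : Finset V), T.card = n → Disjoint S T → (∀ u ∈ T, f u ∈ S) →
      (∀ x ∈ S, (T.filter fun u => f u = x).card ≤ β) →
      ∀ C : V → V → ℤ, (∀ u v, C u v = C v u) → (∀ u, C u u = 0) → (∀ u v, A u v ≤ C u v) →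
      ∃ (T' : Finset V) (q : ℕ) (σ : V → ℤ), T' ⊆ T ∧ T'.card = 2 * q ∧ T.card ≤ 2 * q + β ∧
        IsSign σ ∧ ∑ v ∈ S, σ v = 0 ∧ ∑ v ∈ T', σ v = 0 ∧
        Q C S σ + 2 * ∑ u ∈ T', σ u * σ (f u) ≤ -2 * s - 2 * q := by
  intro n
  induction n using Nat.strong_induction_on with
  | _ n ih =>
    intro T hT hST hf hβ C hC hC0 hAC
    by_cases hE : ∃ u ∈ T, ∃ v ∈ T, f u ≠ f v
    · obtain ⟨x, hx, y, hy, hxy⟩ := hE
      have hne : x ≠ y := fun h => hxy (by rw [h])
      have hyx : y ∈ T.erase x := Finset.mem_erase.mpr ⟨hne.symm, hy⟩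
      have hcard : ((T.erase x).erase y).card + 2 = T.card := by
        rw [Finset.card_erase_of_mem hyx, Finset.card_erase_of_mem hx]
        have : 0 < (T.erase x).card := Finset.card_pos.mpr ⟨y, hyx⟩
        rw [Finset.card_erase_of_mem hx] at this
        omega
      have hc : ((T.erase x).erase y).card < n := by omega
      set T₀ := (T.erase x).erase y with hT₀
      have hsub : T₀ ⊆ T := fun v hv =>
        Finset.mem_of_mem_erase (Finset.mem_of_mem_erase hv)
      have hxT₀ : x ∉ T₀ := by simp [hT₀]
      have hyT₀ : y ∉ T₀ := by simp [hT₀]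
      set D : V → V → ℤ := fun u v => C u v +
        ((if u = f x ∧ v = f y then 1 else 0) + (if u = f y ∧ v = f x then 1 else 0)) with hD
      have hDsymm : ∀ u v, D u v = D v u := by
        intro u v
        simp only [hD]
        rw [hC u v]
        have e1 : (u = f x ∧ v = f y) ↔ (v = f y ∧ u = f x) := and_comm
        have e2 : (u = f y ∧ v = f x) ↔ (v = f x ∧ u = f y) := and_comm
        simp only [e1, e2]
        ring
      have hD0 : ∀ u, D u u = 0 := by
        intro u
        simp only [hD, hC0]
        have e1 : ¬ (u = f x ∧ u = f y) := fun h => hxy (h.1.symm.trans h.2)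
        have e2 : ¬ (u = f y ∧ u = f x) := fun h => hxy (h.2.symm.trans h.1)
        simp [e1, e2]
      have hAD : ∀ u v, A u v ≤ D u v := by
        intro u v
        have := hAC u v
        simp only [hD]
        split_ifs <;> linarith
      obtain ⟨T', q, σ, g1, g2, g3, g4, g5, g6, g7⟩ := ih _ hc T₀ rfl
        (Finset.disjoint_of_subset_right hsub hST) (fun u hu => hf u (hsub hu))
        (fun z hz => le_trans (Finset.card_le_card
          (Finset.filter_subset_filter _ hsub)) (hβ z hz)) D hDsymm hD0 hAD
      have hxT' : x ∉ T' := fun h => hxT₀ (g1 h)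
      have hyT' : y ∉ T' := fun h => hyT₀ (g1 h)
      have hxS : x ∉ S := fun h => Finset.disjoint_left.mp hST h hx
      have hyS : y ∉ S := fun h => Finset.disjoint_left.mp hST h hy
      have hfx : f x ∈ S := hf x hx
      have hfy : f y ∈ S := hf y hy
      -- the new sign function
      set τ : V → ℤ := fun v => if v = x then -σ (f x) else if v = y then σ (f x) else σ v
        with hτ
      have hτS : ∀ v ∈ S, τ v = σ v := by
        intro v hv
        have h1 : v ≠ x := fun h => hxS (h ▸ hv)
        have h2 : v ≠ y := fun h => hyS (h ▸ hv)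
        simp [hτ, h1, h2]
      have hτT' : ∀ v ∈ T', τ v = σ v := by
        intro v hv
        have h1 : v ≠ x := fun h => hxT' (h ▸ hv)
        have h2 : v ≠ y := fun h => hyT' (h ▸ hv)
        simp [hτ, h1, h2]
      have hτx : τ x = -σ (f x) := by simp [hτ]
      have hτy : τ y = σ (f x) := by simp [hτ, hne.symm]
      have hdis : Disjoint T' {x, y} := by
        rw [Finset.disjoint_left]
        intro v hv hv2
        simp only [Finset.mem_insert, Finset.mem_singleton] at hv2
        rcases hv2 with h | h
        · exact hxT' (h ▸ hv)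
        · exact hyT' (h ▸ hv)
      have hQD : Q D S σ = Q C S σ + 2 * (σ (f x) * σ (f y)) := by
        unfold Q
        have e1 : ∀ u v, D u v * σ u * σ v = C u v * σ u * σ v +
            ((if u = f x ∧ v = f y then σ u * σ v else 0) +
              (if u = f y ∧ v = f x then σ u * σ v else 0)) := by
          intro u v
          simp only [hD]
          split_ifs <;> ring
        simp only [e1, Finset.sum_add_distrib]
        have e2 : ∀ a ∈ S, ∀ b ∈ S,
            ∑ u ∈ S, ∑ v ∈ S, (if u = a ∧ v = b then σ u * σ v else 0) = σ a * σ b := by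
          intro a ha b hb
          rw [Finset.sum_eq_single a]
          · rw [Finset.sum_eq_single b]
            · simp
            · intro v _ hv
              simp [hv]
            · intro h; exact absurd hb h
          · intro u _ hu
            simp [hu]
          · intro h; exact absurd ha h
        rw [e2 _ hfx _ hfy, e2 _ hfy _ hfx]
        ring
      refine ⟨T' ∪ {x, y}, q + 1, τ, ?_, ?_, ?_, ?_, ?_, ?_, ?_⟩
      · intro v hv
        simp only [Finset.mem_union, Finset.mem_insert, Finset.mem_singleton] at hv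
        rcases hv with h | h | h
        · exact hsub (g1 h)
        · rw [h]; exact hx
        · rw [h]; exact hy
      · rw [Finset.card_union_of_disjoint hdis, g2, Finset.card_pair hne]; ring
      · omega
      · intro v
        simp only [hτ]
        split_ifs
        · rcases g4 (f x) with h | h <;> simp [h]
        · exact g4 (f x)
        · exact g4 v
      · rw [Finset.sum_congr rfl hτS]; exact g5
      · rw [Finset.sum_union hdis, Finset.sum_pair hne, hτx, hτy,
          Finset.sum_congr rfl hτT', g6]
        ring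
      · rw [Finset.sum_union hdis, Finset.sum_pair hne, hτx, hτy, hτS _ hfx, hτS _ hfy,
          Q_congr hτS]
        have e1 : ∑ u ∈ T', τ u * τ (f u) = ∑ u ∈ T', σ u * σ (f u) := by
          refine Finset.sum_congr rfl fun u hu => ?_
          rw [hτT' u hu, hτS (f u) (hf u (hsub (g1 hu)))]
        rw [e1]
        have e2 := g4.sq (f x)
        rw [hQD] at g7
        push_cast
        linarith
    · push Not at hE
      obtain ⟨σ, s1, s2, s3⟩ := hS.2.2 C hC hC0 hAC
      refine ⟨∅, 0, σ, by simp, by simp, ?_, s1, s2, by simp, by simpa using s3⟩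
      rcases T.eq_empty_or_nonempty with h | ⟨x, hx⟩
      · simp [h]
      · have : T = T.filter fun u => f u = f x := by
          ext u
          simp only [Finset.mem_filter]
          exact ⟨fun hu => ⟨hu, hE u hu x hx⟩, fun hu => hu.1⟩
        have h2 := hβ (f x) (hf x hx)
        rw [← this] at h2
        omega

end Pool.Agent.Helper718_bisection
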