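import Pool.Agent.Helper718_bisection.Bounds

/-!
# The slice relaxation

For a symmetric `0/1` matrix `A` with zero diagonal and any real weights `d` there is a balanced
sign vector `σ` with `½ σᵀAσ + |Σ d σ| ≤ max d - min d`.
-/

namespace Pool.Agent.Helper718_bisection.Slice

open Finset

variable {V : Type*} [Fintype V] [DecidableEq V]

/-- The bilinear form of `A`. -/
noncomputable def BB (A : V → V → ℝ) : (V → ℝ) →ₗ[ℝ] (V → ℝ) →ₗ[ℝ] ℝ :=
  Matrix.toLinearMap₂' ℝ (Matrix.of A)

lemma BB_apply (A : V → V → ℝ) (x y : V → ℝ) :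
    BB A x y = ∑ u, ∑ v, A u v * x u * y v := by
  unfold BB
  rw [Matrix.toLinearMap₂'_apply]
  refine sum_congr rfl fun u _ => sum_congr rfl fun v _ => ?_
  simp only [smul_eq_mul, Matrix.of_apply]; ring

lemma BB_single (A : V → V → ℝ) (i j : V) : BB A (Pi.single i 1) (Pi.single j 1) = A i j := by
  rw [BB_apply, Finset.sum_eq_single i, Finset.sum_eq_single j]
  · simp
  · intro b _ hb; simp [hb]
  · simp
  · intro b _ hb; simp [hb]
  · simp

lemma BB_symm {A : V → V → ℝ} (hA : ∀ u v, A u v = A v u) (x y : V → ℝ) :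
    BB A x y = BB A y x := by
  rw [BB_apply, BB_apply, Finset.sum_comm]
  refine sum_congr rfl fun u _ => sum_congr rfl fun v _ => ?_
  rw [hA]; ring

/-- Feasible points of the relaxation. -/
structure Feas (A : V → V → ℝ) (d : V → ℝ) (p : V → ℝ) : Prop where
  bd : ∀ u, |p u| ≤ 1
  sum0 : ∑ u, p u = 0
  lin0 : ∑ u, d u * p u = 0
  quad : BB A p p ≤ 0

/-- The fractional coordinates. -/
noncomputable def Rf (p : V → ℝ) : Finset V := univ.filter fun u => |p u| < 1

lemma mem_Rf {p : V → ℝ} {u : V} : u ∈ Rf p ↔ |p u| < 1 := by simp [Rf]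

lemma line {A : V → V → ℝ} (hA : ∀ u v, A u v = A v u) {d p w : V → ℝ} (hp : Feas A d p)
    (hw : ∃ u, w u ≠ 0) (hwR : ∀ u, w u ≠ 0 → u ∈ Rf p)
    (hw0 : ∑ u, w u = 0) (hwd : ∑ u, d u * w u = 0) (hq : BB A w w ≤ 0) :
    ∃ p', Feas A d p' ∧ Rf p' ⊂ Rf p := by
  wlog hB : BB A p w ≤ 0 generalizing w
  · refine this (w := -w) ?_ ?_ ?_ ?_ ?_ ?_
    · obtain ⟨u, hu⟩ := hw
      exact ⟨u, by simpa using hu⟩
    · intro u hu; exact hwR u (by simpa using hu)
    · simp [hw0]
    · simp [hwd]
    · simpa using hq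
    · simp only [map_neg]; linarith
  obtain ⟨u0, hu0⟩ := hw
  set r : V → ℝ := fun u => if 0 < w u then (1 - p u) / w u else (1 + p u) / (- w u) with hr
  obtain ⟨u1, hu1, hmin⟩ := Finset.exists_min_image (univ.filter fun u => w u ≠ 0) r
    ⟨u0, by simp [hu0]⟩
  have hw1 : w u1 ≠ 0 := by simpa using hu1
  have hR1 := mem_Rf.mp (hwR u1 hw1)
  rw [abs_lt] at hR1
  have hs : 0 ≤ r u1 := by
    simp only [hr]
    split_ifs with h
    · exact div_nonneg (by linarith) h.le
    · exact div_nonneg (by linarith) (by linarith)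
  set s := r u1 with hsdef
  have hbd : ∀ u, |p u + s * w u| ≤ 1 := by
    intro u
    have hpu := abs_le.mp (hp.bd u)
    by_cases h0 : w u = 0
    · simp [h0, hp.bd u]
    have hle : s ≤ r u := hmin u (by simp [h0])
    simp only [hr] at hle
    split_ifs at hle with h
    · rw [le_div_iff₀ h] at hle
      have : 0 ≤ s * w u := mul_nonneg hs h.le
      rw [abs_le]; constructor <;> linarith
    · have hneg : 0 < - w u := by
        rcases lt_trichotomy (w u) 0 with h' | h' | h'
        · linarith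
        · exact absurd h' h0
        · exact absurd h' h
      rw [le_div_iff₀ hneg] at hle
      have : 0 ≤ s * (- w u) := mul_nonneg hs hneg.le
      rw [abs_le]; constructor <;> linarith
  have h1 : |p u1 + s * w u1| = 1 := by
    by_cases h : 0 < w u1
    · have : s * w u1 = 1 - p u1 := by
        rw [hsdef]; simp only [hr]; rw [if_pos h]; field_simp
      rw [this]; simp
    · have hneg : 0 < - w u1 := by
        rcases lt_trichotomy (w u1) 0 with h' | h' | h'
        · linarith
        · exact absurd h' hw1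
        · exact absurd h' h
      have : s * (- w u1) = 1 + p u1 := by
        rw [hsdef]; simp only [hr]; rw [if_neg h]; field_simp
      have h2 : p u1 + s * w u1 = -1 := by linarith
      rw [h2]; simp
  refine ⟨fun u => p u + s * w u, ⟨hbd, ?_, ?_, ?_⟩, ?_⟩
  · rw [Finset.sum_add_distrib, ← Finset.mul_sum, hp.sum0, hw0]; simp
  · have : ∀ u, d u * (p u + s * w u) = d u * p u + s * (d u * w u) := fun u => by ring
    simp only [this]
    rw [Finset.sum_add_distrib, ← Finset.mul_sum, hp.lin0, hwd]; simp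
  · have e : (fun u => p u + s * w u) = p + s • w := by ext u; simp
    rw [e]
    simp only [map_add, map_smul, LinearMap.add_apply, LinearMap.smul_apply, smul_eq_mul]
    rw [BB_symm hA w p]
    have := hp.quad
    have h3 : s * BB A p w ≤ 0 := mul_nonpos_of_nonneg_of_nonpos hs hB
    have h4 : s * (s * BB A w w) ≤ 0 :=
      mul_nonpos_of_nonneg_of_nonpos hs (mul_nonpos_of_nonneg_of_nonpos hs hq)
    linarith
  · refine ⟨fun u hu => ?_, fun hsub => ?_⟩
    · by_cases h0 : w u = 0
      · have := mem_Rf.mp hu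
        simp only [h0, mul_zero, add_zero] at this
        exact mem_Rf.mpr this
      · exact hwR u h0
    · have := mem_Rf.mp (hsub (hwR u1 hw1))
      linarith

/-- A direction supported on three coordinates. -/
lemma quad3 {A : V → V → ℝ} (hA : ∀ u v, A u v = A v u) (hA0 : ∀ u, A u u = 0) (i j k : V)
    (a b c : ℝ) :
    BB A (a • Pi.single i (1:ℝ) + b • Pi.single j 1 + c • Pi.single k 1)
      (a • Pi.single i (1:ℝ) + b • Pi.single j 1 + c • Pi.single k 1)
      = 2 * (A i j * a * b + A j k * b * c + A i k * a * c) := by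
  simp only [map_add, map_smul, LinearMap.add_apply, LinearMap.smul_apply, smul_eq_mul,
    BB_single, hA0]
  rw [hA j i, hA k j, hA k i]
  ring

lemma sum3 (f : V → ℝ) (i j k : V) (a b c : ℝ) :
    ∑ u, f u * (a • Pi.single i (1:ℝ) + b • Pi.single j 1 + c • Pi.single k 1 : V → ℝ) u
      = f i * a + f j * b + f k * c := by
  simp only [Pi.add_apply, Pi.smul_apply, smul_eq_mul, mul_add, Finset.sum_add_distrib]
  congr 1
  · congr 1
    · rw [Finset.sum_eq_single i]
      · simp
      · intro b _ hb; simp [hb]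
      · simp
    · rw [Finset.sum_eq_single j]
      · simp
      · intro b _ hb; simp [hb]
      · simp
  · rw [Finset.sum_eq_single k]
    · simp
    · intro b _ hb; simp [hb]
    · simp

/-- A good direction on three fractional coordinates yields a better point. -/
lemma move {A : V → V → ℝ} (hA : ∀ u v, A u v = A v u) (hA0 : ∀ u, A u u = 0)
    {d p : V → ℝ} (hp : Feas A d p) {i j k : V} (hi : i ∈ Rf p) (hj : j ∈ Rf p) (hk : k ∈ Rf p)
    (hij : i ≠ j) (hik : i ≠ k) (hjk : j ≠ k) {a b c : ℝ} (ha : a ≠ 0 ∨ b ≠ 0)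
    (h0 : a + b + c = 0) (h1 : d i * a + d j * b + d k * c = 0)
    (hq : A i j * a * b + A j k * b * c + A i k * a * c ≤ 0) :
    ∃ p', Feas A d p' ∧ Rf p' ⊂ Rf p := by
  refine line hA hp (w := a • Pi.single i (1:ℝ) + b • Pi.single j 1 + c • Pi.single k 1)
    ?_ ?_ ?_ ?_ ?_
  · rcases ha with ha | hb
    · exact ⟨i, by simp [hij, hik, ha]⟩
    · exact ⟨j, by simp [hij.symm, hjk, hb]⟩
  · intro u hu
    by_cases h1 : u = i
    · rw [h1]; exact hi
    by_cases h2 : u = j
    · rw [h2]; exact hj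
    by_cases h3 : u = k
    · rw [h3]; exact hk
    exfalso; apply hu
    simp [h1, h2, h3]
  · have := sum3 (fun _ => (1:ℝ)) i j k a b c
    simp only [one_mul] at this
    rw [this, h0]
  · rw [sum3 d i j k a b c, h1]
  · rw [quad3 hA hA0]; linarith

/-- With at least four fractional coordinates one can be removed. -/
lemma reduce {A : V → V → ℝ} (hA : ∀ u v, A u v = A v u) (hA0 : ∀ u, A u u = 0)
    (hA1 : ∀ u v, A u v = 0 ∨ A u v = 1)
    {d p : V → ℝ} (hp : Feas A d p) (h4 : 4 ≤ (Rf p).card) :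
    ∃ p', Feas A d p' ∧ Rf p' ⊂ Rf p := by
  have hnn : ∀ u v, 0 ≤ A u v := fun u v => by rcases hA1 u v with h | h <;> rw [h]; norm_num
  obtain ⟨i, hi, hmax⟩ := Finset.exists_max_image (Rf p) d (Finset.card_pos.mp (by omega))
  have c1 : ((Rf p).erase i).card = (Rf p).card - 1 := Finset.card_erase_of_mem hi
  obtain ⟨l, hl', hmin⟩ := Finset.exists_min_image ((Rf p).erase i) d
    (Finset.card_pos.mp (by omega))
  have hl : l ∈ Rf p := Finset.mem_of_mem_erase hl'
  have hli : l ≠ i := Finset.ne_of_mem_erase hl'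
  have c2 : (((Rf p).erase i).erase l).card = (Rf p).card - 2 := by
    rw [Finset.card_erase_of_mem hl', c1]; omega
  obtain ⟨j, hj', k, hk', hjk⟩ := Finset.one_lt_card.mp
    (show 1 < (((Rf p).erase i).erase l).card by omega)
  wlog hdjk : d k ≤ d j generalizing j k
  · exact this k hk' j hj' hjk.symm (le_of_lt (not_le.mp hdjk))
  have hj2 := Finset.mem_of_mem_erase hj'
  have hk2 := Finset.mem_of_mem_erase hk'
  have hj : j ∈ Rf p := Finset.mem_of_mem_erase hj2
  have hk : k ∈ Rf p := Finset.mem_of_mem_erase hk2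
  have hjl : j ≠ l := Finset.ne_of_mem_erase hj'
  have hkl : k ≠ l := Finset.ne_of_mem_erase hk'
  have hji : j ≠ i := Finset.ne_of_mem_erase hj2
  have hki : k ≠ i := Finset.ne_of_mem_erase hk2
  have d1 : d j ≤ d i := hmax j hj
  have d2 : d l ≤ d k := hmin k hk2
  -- pair moves when two degrees agree
  by_cases e1 : d i = d j
  · exact move hA hA0 hp hi hj hl hji.symm hli.symm hjl (a := 1) (b := -1) (c := 0)
      (Or.inl one_ne_zero) (by ring) (by rw [e1]; ring) (by have := hnn i j; nlinarith)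
  by_cases e2 : d i = d k
  · exfalso; apply e1; linarith
  have d3 : d j < d i := lt_of_le_of_ne d1 (Ne.symm e1)
  -- the triple `i, j, l`
  by_cases q1 : A i j * (d j - d l) * (d l - d i) + A j l * (d l - d i) * (d i - d j)
      + A i l * (d j - d l) * (d i - d j) ≤ 0
  · exact move hA hA0 hp hi hj hl hji.symm hli.symm hjl (a := d j - d l) (b := d l - d i)
      (c := d i - d j) (Or.inr (by intro h; linarith)) (by ring) (by ring) q1
  -- the triple `i, j, k` or `i, k, l`
  have hil : A i l = 1 := by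
    rcases hA1 i l with h | h
    · exfalso; apply q1
      rw [h]
      have := mul_nonneg (mul_nonneg (hnn i j) (show 0 ≤ d j - d l by linarith))
        (show 0 ≤ d i - d l by linarith)
      have := mul_nonneg (mul_nonneg (hnn j l) (show 0 ≤ d i - d l by linarith))
        (show 0 ≤ d i - d j by linarith)
      nlinarith
    · exact h
  have hij : A i j = 0 := by
    rcases hA1 i j with h | h
    · exact h
    · exfalso; apply q1
      rw [h, hil]
      have := mul_nonneg (mul_nonneg (hnn j l) (show 0 ≤ d i - d l by linarith))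
        (show 0 ≤ d i - d j by linarith)
      have : 0 ≤ (d j - d l) * (d j - d l) := mul_self_nonneg _
      nlinarith
  have hjl0 : A j l = 0 := by
    rcases hA1 j l with h | h
    · exact h
    · exfalso; apply q1
      rw [h, hil, hij]
      have : 0 ≤ (d i - d j) * (d i - d j) := mul_self_nonneg _
      nlinarith
  -- now `i, k, l`
  by_cases q2 : A i k * (d k - d l) * (d l - d i) + A k l * (d l - d i) * (d i - d k)
      + A i l * (d k - d l) * (d i - d k) ≤ 0
  · exact move hA hA0 hp hi hk hl hki.symm hli.symm hkl (a := d k - d l) (b := d l - d i)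
      (c := d i - d k) (Or.inr (by intro h; linarith)) (by ring) (by ring) q2
  have hik : A i k = 0 := by
    rcases hA1 i k with h | h
    · exact h
    · exfalso; apply q2
      rw [h, hil]
      have := mul_nonneg (mul_nonneg (hnn k l) (show 0 ≤ d i - d l by linarith))
        (show 0 ≤ d i - d k by linarith)
      have : 0 ≤ (d k - d l) * (d k - d l) := mul_self_nonneg _
      nlinarith
  refine move hA hA0 hp hi hj hk hji.symm hki.symm hjk (a := d j - d k) (b := d k - d i)
    (c := d i - d j) (Or.inr (by intro h; exact e2 (by linarith))) (by ring) (by ring) ?_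
  rw [hij, hik]
  have := mul_nonneg (mul_nonneg (hnn j k) (show 0 ≤ d i - d k by linarith))
    (show 0 ≤ d i - d j by linarith)
  nlinarith

/-- There is a feasible point with at most three fractional coordinates. -/
lemma exists_few {A : V → V → ℝ} (hA : ∀ u v, A u v = A v u) (hA0 : ∀ u, A u u = 0)
    (hA1 : ∀ u v, A u v = 0 ∨ A u v = 1) (d : V → ℝ) :
    ∃ p, Feas A d p ∧ (Rf p).card ≤ 3 := by
  have key : ∀ n : ℕ, ∀ p, Feas A d p → (Rf p).card ≤ n → ∃ p', Feas A d p' ∧ (Rf p').card ≤ 3 := by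
    intro n
    induction n with
    | zero => intro p hp h; exact ⟨p, hp, by omega⟩
    | succ n ih =>
      intro p hp h
      by_cases h3 : (Rf p).card ≤ 3
      · exact ⟨p, hp, h3⟩
      · obtain ⟨p', hp', hlt⟩ := reduce hA hA0 hA1 hp (by omega)
        have := Finset.card_lt_card hlt
        exact ih p' hp' (by omega)
  refine key _ 0 ⟨by simp, by simp, by simp, by simp⟩ le_rfl

/-- A weighted mean absolute deviation is at most half the range. -/
lemma mad {R : Finset V} {w d : V → ℝ} {W : ℝ} (hne : R.Nonempty) (hw : ∀ v ∈ R, 0 ≤ w v)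
    (hw1 : ∑ v ∈ R, w v = 1) (hW : ∀ u v, d u - d v ≤ W) :
    ∑ v ∈ R, w v * |2 * (∑ u ∈ R, w u * d u) - 2 * d v| ≤ W := by
  set μ := ∑ u ∈ R, w u * d u with hμ
  obtain ⟨x, hx, hmax⟩ := Finset.exists_max_image R d hne
  obtain ⟨y, hy, hmin⟩ := Finset.exists_min_image R d hne
  have hW0 : 0 ≤ W := by have := hW x x; linarith
  rcases hW0.eq_or_lt with h0 | hpos
  · -- all degrees agree
    have e : ∀ u ∈ R, d u = d x := fun u _ => by
      have h1 := hW u x
      have h2 := hW x u
      linarith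
    have hm : μ = d x := by
      rw [hμ]
      have : ∑ u ∈ R, w u * d u = ∑ u ∈ R, w u * d x :=
        Finset.sum_congr rfl fun u hu => by rw [e u hu]
      rw [this, ← Finset.sum_mul, hw1, one_mul]
    have : ∑ v ∈ R, w v * |2 * μ - 2 * d v| = 0 :=
      Finset.sum_eq_zero fun v hv => by rw [hm, e v hv]; simp
    rw [this]; exact hW0
  have hvar : ∑ v ∈ R, w v * (μ - d v) ^ 2 ≤ W ^ 2 / 4 := by
    have h1 : ∀ v ∈ R, w v * (μ - d v) ^ 2
        ≤ w v * (μ ^ 2 - d y * d x) + (w v * d v) * (d x + d y - 2 * μ) := by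
      intro v hv
      have h2 : 0 ≤ (d x - d v) * (d v - d y) :=
        mul_nonneg (by have := hmax v hv; linarith) (by have := hmin v hv; linarith)
      have h3 := mul_nonneg (hw v hv) h2
      nlinarith
    have h2 := Finset.sum_le_sum h1
    rw [Finset.sum_add_distrib, ← Finset.sum_mul, ← Finset.sum_mul, hw1, ← hμ] at h2
    have h3 := hW x y
    have h4 : 0 ≤ d x - d y := by have := hmax y hy; linarith
    have h5 : 0 ≤ (2 * μ - d x - d y) ^ 2 := sq_nonneg _
    have h6 : (d x - d y) ^ 2 ≤ W ^ 2 := by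
      apply pow_le_pow_left₀ h4 h3
    nlinarith
  have h1 : ∀ v ∈ R, 2 * W * (w v * |2 * μ - 2 * d v|) ≤ 4 * (w v * (μ - d v) ^ 2) + w v * W ^ 2 := by
    intro v hv
    have h2 : |2 * μ - 2 * d v| ^ 2 = 4 * (μ - d v) ^ 2 := by rw [sq_abs]; ring
    have h3 : 0 ≤ (|2 * μ - 2 * d v| - W) ^ 2 := sq_nonneg _
    have h4 : 2 * W * |2 * μ - 2 * d v| ≤ 4 * (μ - d v) ^ 2 + W ^ 2 := by nlinarith
    have h5 := mul_le_mul_of_nonneg_left h4 (hw v hv)
    nlinarith
  have h2 := Finset.sum_le_sum h1
  rw [← Finset.mul_sum, Finset.sum_add_distrib, ← Finset.mul_sum, ← Finset.sum_mul, hw1] at h2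
  by_contra hlt
  push Not at hlt
  have h3 : 2 * W * W < 2 * W * ∑ v ∈ R, w v * |2 * μ - 2 * d v| :=
    mul_lt_mul_of_pos_left hlt (by linarith)
  nlinarith

/-- Rounding. -/
lemma round {A : V → V → ℝ} (hA : ∀ u v, A u v = A v u) (hA0 : ∀ u, A u u = 0)
    (hnn : ∀ u v, 0 ≤ A u v) {d p : V → ℝ} (hp : Feas A d p) (hne : (Rf p).Nonempty)
    (hsum : ∑ v ∈ Rf p, (1 - p v) = 2) {W : ℝ} (hW : ∀ u v, d u - d v ≤ W) :
    ∃ σ : V → ℝ, (∀ u, σ u = 1 ∨ σ u = -1) ∧ ∑ u, σ u = 0 ∧
      BB A σ σ / 2 + |∑ u, d u * σ u| ≤ W := by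
  set R := Rf p with hR
  set w : V → ℝ := fun v => (1 - p v) / 2 with hw
  have hwnn : ∀ v, 0 ≤ w v := fun v => by
    have := abs_le.mp (hp.bd v)
    simp only [hw]; linarith
  have hw1 : ∑ v ∈ R, w v = 1 := by
    simp only [hw]
    rw [← Finset.sum_div, hsum]; norm_num
  set q : V → ℝ := fun u => if u ∈ R then 1 else p u with hq
  set z : V → ℝ := ∑ v ∈ R, w v • Pi.single v (1:ℝ) with hz
  have hzu : ∀ u, z u = if u ∈ R then w u else 0 := by
    intro u
    rw [hz, Finset.sum_apply]
    simp only [Pi.smul_apply, smul_eq_mul]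
    split_ifs with h
    · rw [Finset.sum_eq_single u]
      · simp
      · intro b _ hb; simp [hb.symm]
      · intro h'; exact absurd h h'
    · refine Finset.sum_eq_zero fun b hb => ?_
      have : u ≠ b := fun e => h (e ▸ hb)
      simp [this]
  have hpq : p = q - (2:ℝ) • z := by
    ext u
    simp only [Pi.sub_apply, Pi.smul_apply, smul_eq_mul, hzu, hq]
    split_ifs with h
    · simp only [hw]; ring
    · ring
  -- the quadratic part
  have quad : ∑ v ∈ R, w v * BB A (q - (2:ℝ) • Pi.single v 1) (q - (2:ℝ) • Pi.single v 1) ≤ 0 := by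
    have e1 : ∀ v, BB A (q - (2:ℝ) • Pi.single v 1) (q - (2:ℝ) • Pi.single v 1)
        = BB A q q - 4 * BB A q (Pi.single v 1) := by
      intro v
      simp only [map_sub, map_smul, LinearMap.sub_apply, LinearMap.smul_apply, smul_eq_mul,
        BB_single, hA0]
      rw [BB_symm hA (Pi.single v 1) q]; ring
    have e2 : ∑ v ∈ R, w v * BB A (q - (2:ℝ) • Pi.single v 1) (q - (2:ℝ) • Pi.single v 1)
        = BB A q q - 4 * BB A q z := by
      simp only [e1]
      have : ∀ v, w v * (BB A q q - 4 * BB A q (Pi.single v 1))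
          = w v * BB A q q - 4 * (w v * BB A q (Pi.single v 1)) := fun v => by ring
      simp only [this]
      rw [Finset.sum_sub_distrib, ← Finset.sum_mul, hw1, ← Finset.mul_sum, hz, map_sum]
      simp only [map_smul, smul_eq_mul]
      ring
    have e3 : BB A p p = BB A q q - 4 * BB A q z + 4 * BB A z z := by
      rw [hpq]
      simp only [map_sub, map_smul, LinearMap.sub_apply, LinearMap.smul_apply, smul_eq_mul]
      rw [BB_symm hA z q]; ring
    have e4 : 0 ≤ BB A z z := by
      rw [BB_apply]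
      refine Finset.sum_nonneg fun u _ => Finset.sum_nonneg fun v _ => ?_
      have h1 : ∀ u, 0 ≤ z u := fun u => by
        rw [hzu]; split_ifs
        · exact hwnn u
        · exact le_rfl
      exact mul_nonneg (mul_nonneg (hnn u v) (h1 u)) (h1 v)
    have := hp.quad
    rw [e2]; linarith
  -- the linear part
  have lin : ∀ v, ∑ u, d u * (q - (2:ℝ) • Pi.single v 1 : V → ℝ) u
      = 2 * (∑ u ∈ R, w u * d u) - 2 * d v := by
    intro v
    have e1 : ∑ u, d u * p u = 0 := hp.lin0
    have e2 : ∀ u, d u * (q - (2:ℝ) • Pi.single v 1 : V → ℝ) u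
        = d u * p u + 2 * (z u * d u) - 2 * (d u * (Pi.single v (1:ℝ) : V → ℝ) u) := by
      intro u
      have : p u = q u - 2 * z u := by rw [hpq]; simp
      simp only [Pi.sub_apply, Pi.smul_apply, smul_eq_mul]
      rw [this]; ring
    simp only [e2]
    rw [Finset.sum_sub_distrib, Finset.sum_add_distrib, e1, ← Finset.mul_sum, ← Finset.mul_sum]
    have e3 : ∑ u, z u * d u = ∑ u ∈ R, w u * d u := by
      simp only [hzu, ite_mul, zero_mul]
      rw [Finset.sum_ite_mem, Finset.univ_inter]
    have e4 : ∑ u, d u * (Pi.single v (1:ℝ) : V → ℝ) u = d v := by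
      rw [Finset.sum_eq_single v]
      · simp
      · intro b _ hb; simp [hb]
      · simp
    rw [e3, e4]; ring
  have hmad := mad hne (fun v _ => hwnn v) hw1 hW
  -- choose a good coordinate
  have hex : ∃ v ∈ R, BB A (q - (2:ℝ) • Pi.single v 1) (q - (2:ℝ) • Pi.single v 1) / 2
      + |∑ u, d u * (q - (2:ℝ) • Pi.single v 1 : V → ℝ) u| ≤ W := by
    by_contra hcon
    push Not at hcon
    have h1 : ∑ v ∈ R, w v * W ≤ ∑ v ∈ R, w v * (BB A (q - (2:ℝ) • Pi.single v 1)
        (q - (2:ℝ) • Pi.single v 1) / 2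
        + |∑ u, d u * (q - (2:ℝ) • Pi.single v 1 : V → ℝ) u|) :=
      Finset.sum_le_sum fun v hv => mul_le_mul_of_nonneg_left (hcon v hv).le (hwnn v)
    have h2 : ∑ v ∈ R, w v * W < ∑ v ∈ R, w v * (BB A (q - (2:ℝ) • Pi.single v 1)
        (q - (2:ℝ) • Pi.single v 1) / 2
        + |∑ u, d u * (q - (2:ℝ) • Pi.single v 1 : V → ℝ) u|) := by
      refine Finset.sum_lt_sum_of_nonempty hne fun v hv => ?_
      refine mul_lt_mul_of_pos_left (hcon v hv) ?_
      have := abs_lt.mp (mem_Rf.mp hv)
      simp only [hw]; linarith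
    rw [← Finset.sum_mul, hw1, one_mul] at h2
    simp only [mul_add, Finset.sum_add_distrib] at h2
    have h3 : ∑ v ∈ R, w v * (BB A (q - (2:ℝ) • Pi.single v 1)
        (q - (2:ℝ) • Pi.single v 1) / 2) ≤ 0 := by
      have : ∀ v, w v * (BB A (q - (2:ℝ) • Pi.single v 1) (q - (2:ℝ) • Pi.single v 1) / 2)
          = (w v * BB A (q - (2:ℝ) • Pi.single v 1) (q - (2:ℝ) • Pi.single v 1)) / 2 :=
        fun v => by ring
      simp only [this]
      rw [← Finset.sum_div]; linarith
    simp only [lin] at h2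
    linarith
  obtain ⟨v, hv, hgood⟩ := hex
  refine ⟨q - (2:ℝ) • Pi.single v 1, ?_, ?_, hgood⟩
  · intro u
    simp only [Pi.sub_apply, Pi.smul_apply, smul_eq_mul]
    by_cases huv : u = v
    · right
      subst huv
      simp only [hq, if_pos hv, Pi.single_eq_same]; norm_num
    · simp only [Pi.single_eq_of_ne huv, mul_zero, sub_zero, hq]
      split_ifs with h
      · left; rfl
      · have h1 : ¬ |p u| < 1 := fun h' => h (mem_Rf.mpr h')
        have h2 : |p u| = 1 := le_antisymm (hp.bd u) (not_lt.mp h1)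
        rcases abs_eq (zero_le_one) |>.mp h2 with h3 | h3
        · left; exact h3
        · right; exact h3
  · have e2 : ∀ u, (q - (2:ℝ) • Pi.single v 1 : V → ℝ) u
        = p u + 2 * z u - 2 * ((Pi.single v (1:ℝ) : V → ℝ) u) := by
      intro u
      have : p u = q u - 2 * z u := by rw [hpq]; simp
      simp only [Pi.sub_apply, Pi.smul_apply, smul_eq_mul]
      rw [this]; ring
    simp only [e2]
    rw [Finset.sum_sub_distrib, Finset.sum_add_distrib, hp.sum0, ← Finset.mul_sum,
      ← Finset.mul_sum]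
    have e3 : ∑ u, z u = ∑ u ∈ R, w u := by
      simp only [hzu]
      rw [Finset.sum_ite_mem, Finset.univ_inter]
    rw [e3, hw1]
    simp

/-- **The slice lemma.** -/
lemma slice {A : V → V → ℝ} (hA : ∀ u v, A u v = A v u) (hA0 : ∀ u, A u u = 0)
    (hA1 : ∀ u v, A u v = 0 ∨ A u v = 1) (d : V → ℝ) (hev : Even (Fintype.card V))
    {W : ℝ} (hW0 : 0 ≤ W) (hW : ∀ u v, d u - d v ≤ W) :
    ∃ σ : V → ℝ, (∀ u, σ u = 1 ∨ σ u = -1) ∧ ∑ u, σ u = 0 ∧
      BB A σ σ / 2 + |∑ u, d u * σ u| ≤ W := by
  have hnn : ∀ u v, 0 ≤ A u v := fun u v => by rcases hA1 u v with h | h <;> rw [h]; norm_num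
  obtain ⟨p, hp, hcard⟩ := exists_few hA hA0 hA1 d
  have hint : ∀ u, u ∉ Rf p → p u = 1 ∨ p u = -1 := by
    intro u h
    have h1 : ¬ |p u| < 1 := fun h' => h (mem_Rf.mpr h')
    have h2 : |p u| = 1 := le_antisymm (hp.bd u) (not_lt.mp h1)
    exact abs_eq (zero_le_one) |>.mp h2
  set P := univ.filter fun u => p u = 1 with hP
  set N := univ.filter fun u => p u = -1 with hN
  have hPN : ∀ u, (if u ∈ P then (1:ℝ) else 0) - (if u ∈ N then 1 else 0)
      + (if u ∈ Rf p then p u else 0) = p u := by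
    intro u
    by_cases h : u ∈ Rf p
    · have h1 := abs_lt.mp (mem_Rf.mp h)
      have h2 : u ∉ P := by simp only [hP, mem_filter, mem_univ, true_and]; intro h'; linarith
      have h3 : u ∉ N := by simp only [hN, mem_filter, mem_univ, true_and]; intro h'; linarith
      simp [h, h2, h3]
    · rcases hint u h with h1 | h1
      · have h2 : u ∈ P := by simp [hP, h1]
        have h3 : u ∉ N := by simp only [hN, mem_filter, mem_univ, true_and]; rw [h1]; norm_num
        simp [h, h2, h3, h1]
      · have h2 : u ∈ N := by simp [hN, h1]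
        have h3 : u ∉ P := by simp only [hP, mem_filter, mem_univ, true_and]; rw [h1]; norm_num
        simp [h, h2, h3, h1]
  have hcnt : ∀ u, (if u ∈ P then (1:ℕ) else 0) + (if u ∈ N then 1 else 0)
      + (if u ∈ Rf p then 1 else 0) = 1 := by
    intro u
    by_cases h : u ∈ Rf p
    · have h1 := abs_lt.mp (mem_Rf.mp h)
      have h2 : u ∉ P := by simp only [hP, mem_filter, mem_univ, true_and]; intro h'; linarith
      have h3 : u ∉ N := by simp only [hN, mem_filter, mem_univ, true_and]; intro h'; linarith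
      simp [h, h2, h3]
    · rcases hint u h with h1 | h1
      · have h2 : u ∈ P := by simp [hP, h1]
        have h3 : u ∉ N := by simp only [hN, mem_filter, mem_univ, true_and]; rw [h1]; norm_num
        simp [h, h2, h3]
      · have h2 : u ∈ N := by simp [hN, h1]
        have h3 : u ∉ P := by simp only [hP, mem_filter, mem_univ, true_and]; rw [h1]; norm_num
        simp [h, h2, h3]
  have s1 : ((P.card : ℝ)) - N.card + ∑ u ∈ Rf p, p u = 0 := by
    have := hp.sum0
    rw [← Finset.sum_congr rfl fun u _ => hPN u, Finset.sum_add_distrib,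
      Finset.sum_sub_distrib] at this
    rw [Finset.sum_ite_mem, Finset.sum_ite_mem, Finset.sum_ite_mem, Finset.univ_inter,
      Finset.univ_inter, Finset.univ_inter] at this
    simpa using this
  have s2 : P.card + N.card + (Rf p).card = Fintype.card V := by
    have : ∑ u : V, ((if u ∈ P then (1:ℕ) else 0) + (if u ∈ N then 1 else 0)
      + (if u ∈ Rf p then 1 else 0)) = ∑ u : V, 1 := Finset.sum_congr rfl fun u _ => hcnt u
    rw [Finset.sum_add_distrib, Finset.sum_add_distrib, Finset.sum_ite_mem, Finset.sum_ite_mem,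
      Finset.sum_ite_mem, Finset.univ_inter, Finset.univ_inter, Finset.univ_inter] at this
    simpa using this
  obtain ⟨n, hn⟩ := hev
  have hb : (Rf p).Nonempty → |∑ u ∈ Rf p, p u| < (Rf p).card := by
    intro hne
    calc |∑ u ∈ Rf p, p u| ≤ ∑ u ∈ Rf p, |p u| := Finset.abs_sum_le_sum_abs _ _
      _ < ∑ u ∈ Rf p, (1:ℝ) := Finset.sum_lt_sum_of_nonempty hne fun u hu => mem_Rf.mp hu
      _ = (Rf p).card := by simp
  rcases Finset.eq_empty_or_nonempty (Rf p) with h0 | hne
  · refine ⟨p, fun u => hint u (by rw [h0]; simp), hp.sum0, ?_⟩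
    rw [hp.lin0]
    have := hp.quad
    simp; linarith
  have hb' := abs_lt.mp (hb hne)
  have hc0 := Finset.card_pos.mpr hne
  -- the integer `|N| - |P|`
  have hS : ∑ u ∈ Rf p, p u = ((N.card : ℤ) - (P.card : ℤ) : ℤ) := by push_cast; linarith
  rw [hS] at hb'
  have hb1 : -((Rf p).card : ℤ) < (N.card : ℤ) - P.card := by exact_mod_cast hb'.1
  have hb2 : (N.card : ℤ) - P.card < ((Rf p).card : ℤ) := by exact_mod_cast hb'.2
  by_cases hs : (N.card : ℤ) - P.card = (Rf p).card - 2
  · refine round hA hA0 hnn hp hne ?_ hW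
    rw [Finset.sum_sub_distrib, hS, hs]; simp
  · have hs' : (N.card : ℤ) - P.card = 2 - (Rf p).card := by omega
    have hRn : Rf (-p) = Rf p := by ext u; simp [Rf]
    have hpn : Feas A d (-p) := ⟨fun u => by simpa using hp.bd u, by simp [hp.sum0],
      by simp [hp.lin0], by simpa using hp.quad⟩
    refine round hA hA0 hnn hpn (by rw [hRn]; exact hne) ?_ hW
    rw [hRn]
    simp only [Pi.neg_apply, sub_neg_eq_add]
    rw [Finset.sum_add_distrib, hS, hs']; simp

end Pool.Agent.Helper718_bisection.Slice
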