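import Pool.Agent.Helper718_bisection.Slice

/-!
# The slice lemma for graphs, and the lower bound from `K_{t,l}`
-/

namespace Pool.Agent.Helper718_bisection.Slice

open Finset

/-- Edge counts of the two classes of a sign vector. -/
lemma count_class {V : Type} [Fintype V] [DecidableEq V] (G : SimpleGraph V) {σ : V → ℤ}
    (hσ : IsSign σ) {t : ℤ} (ht : t = 1 ∨ t = -1) :
    8 * (edgesWithin G {v | σ v = t} : ℤ)
        = M2 (adj G) + 2 * (t * L (adj G) σ) + Q (adj G) univ σ := by
  classical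
  have h := two_mul_edges G {v | σ v = t}
  have htt : t * t = 1 := by rcases ht with rfl | rfl <;> norm_num
  have e1 : ∀ u v, 4 * (if u ∈ {v | σ v = t} ∧ v ∈ {v | σ v = t} then adj G u v else 0)
      = adj G u v + t * (adj G u v * σ u) + t * (adj G u v * σ v)
        + adj G u v * σ u * σ v := by
    intro u v
    have e2 : adj G u v + t * (adj G u v * σ u) + t * (adj G u v * σ v)
        + adj G u v * σ u * σ v = adj G u v * ((1 + t * σ u) * (1 + t * σ v)) := by
      have : adj G u v * ((1 + t * σ u) * (1 + t * σ v)) = adj G u v + t * (adj G u v * σ u)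
        + t * (adj G u v * σ v) + (t * t) * (adj G u v * σ u * σ v) := by ring
      rw [this, htt]; ring
    rw [e2]
    simp only [Set.mem_ofPred_eq]
    rcases ht with rfl | rfl <;> rcases hσ u with hu | hu <;> rcases hσ v with hv | hv <;>
      simp [hu, hv] <;> ring
  have e3 : 8 * (edgesWithin G {v | σ v = t} : ℤ)
      = ∑ u, ∑ v, 4 * (if u ∈ {v | σ v = t} ∧ v ∈ {v | σ v = t} then adj G u v else 0) := by
    simp only [← Finset.mul_sum]
    rw [← h]
    unfold edgesWithin
    ring
  rw [e3]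
  simp only [e1, Finset.sum_add_distrib, ← Finset.mul_sum]
  have e4 : ∑ u, ∑ v, adj G u v * σ u = L (adj G) σ := by
    unfold L
    refine Finset.sum_congr rfl fun u _ => ?_
    rw [Finset.mul_sum]
    exact Finset.sum_congr rfl fun v _ => by ring
  have e5 : ∑ u, ∑ v, adj G u v * σ v = L (adj G) σ := by
    rw [← e4, Finset.sum_comm]
    refine Finset.sum_congr rfl fun u _ => Finset.sum_congr rfl fun v _ => ?_
    rw [adj_symm]
  rw [e4, e5]
  unfold M2 Q
  ring

lemma two_mul_m {V : Type} [Fintype V] [DecidableEq V] (G : SimpleGraph V) :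
    2 * (G.edgeSet.ncard : ℤ) = M2 (adj G) := by
  classical
  have h := two_mul_edges G (Set.univ : Set V)
  have e1 : ({e ∈ G.edgeSet | ∀ v ∈ e, v ∈ (Set.univ : Set V)} : Set (Sym2 V)) = G.edgeSet := by
    ext e; simp
  rw [e1] at h
  rw [h]
  unfold M2
  simp

/-- From a sign function to a bisection. -/
lemma finishR {V : Type} [Fintype V] [DecidableEq V] (G : SimpleGraph V) {σ : V → ℝ}
    (hσ : ∀ u, σ u = 1 ∨ σ u = -1) (hbal : |∑ v, σ v| ≤ 1) {W : ℝ}
    (hW : (∑ u, ∑ v, (adj G u v : ℝ) * σ u * σ v) / 2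
      + |∑ u, ((G.neighborSet u).ncard : ℝ) * σ u| ≤ W) :
    ∃ V₁ V₂ : Set V, IsBisection V₁ V₂ ∧
      max (edgesWithin G V₁ : ℝ) (edgesWithin G V₂ : ℝ) ≤ ((G.edgeSet.ncard : ℝ) + W) / 4 := by
  classical
  set τ : V → ℤ := fun u => if σ u = 1 then 1 else -1 with hτ
  have hτσ : ∀ u, (τ u : ℝ) = σ u := by
    intro u
    simp only [hτ]
    split_ifs with h
    · rw [h]; simp
    · rw [(hσ u).resolve_left h]; simp
  have hτs : IsSign τ := by
    intro u; simp only [hτ]; split_ifs <;> simp
  have hQ : (Q (adj G) univ τ : ℝ) = ∑ u, ∑ v, (adj G u v : ℝ) * σ u * σ v := by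
    unfold Q
    push_cast
    exact Finset.sum_congr rfl fun u _ => Finset.sum_congr rfl fun v _ => by
      rw [hτσ, hτσ]
  have hL : (L (adj G) τ : ℝ) = ∑ u, ((G.neighborSet u).ncard : ℝ) * σ u := by
    unfold L
    simp only [sum_adj]
    push_cast
    exact Finset.sum_congr rfl fun u _ => by rw [hτσ]; ring
  have hm := two_mul_m G
  have hmR : 2 * (G.edgeSet.ncard : ℝ) = (M2 (adj G) : ℝ) := by exact_mod_cast hm
  refine ⟨{v | τ v = 1}, {v | τ v = -1}, ⟨?_, ?_, ?_⟩, ?_⟩
  · ext v
    simpa using hτs v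
  · rw [Set.disjoint_left]
    intro v hv hv'
    simp only [Set.mem_ofPred_eq] at hv hv'
    omega
  · have e1 : (({v | τ v = 1} : Set V).ncard : ℤ) - (({v | τ v = -1} : Set V).ncard : ℤ)
        = ∑ v, τ v := by
      have a1 : ({v | τ v = 1} : Set V).ncard = (univ.filter fun v => τ v = 1).card := by
        rw [← Set.ncard_coe_finset]; congr 1; ext v; simp
      have a2 : ({v | τ v = -1} : Set V).ncard = (univ.filter fun v => τ v = -1).card := by
        rw [← Set.ncard_coe_finset]; congr 1; ext v; simp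
      rw [a1, a2, Finset.card_filter, Finset.card_filter]
      push_cast
      rw [← Finset.sum_sub_distrib]
      refine Finset.sum_congr rfl fun v _ => ?_
      rcases hτs v with h | h <;> simp [h]
    rw [e1]
    have : ((∑ v, τ v : ℤ) : ℝ) = ∑ v, σ v := by
      push_cast
      exact Finset.sum_congr rfl fun u _ => hτσ u
    rw [← this] at hbal
    exact_mod_cast hbal
  · have k1 := count_class G hτs (t := 1) (Or.inl rfl)
    have k2 := count_class G hτs (t := -1) (Or.inr rfl)
    have k1' : 8 * (edgesWithin G {v | τ v = 1} : ℝ)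
        = (M2 (adj G) : ℝ) + 2 * (1 * (L (adj G) τ : ℝ)) + Q (adj G) univ τ := by
      exact_mod_cast k1
    have k2' : 8 * (edgesWithin G {v | τ v = -1} : ℝ)
        = (M2 (adj G) : ℝ) + 2 * (-1 * (L (adj G) τ : ℝ)) + Q (adj G) univ τ := by
      exact_mod_cast k2
    rw [hQ, hL] at k1' k2'
    have l1 := le_abs_self (∑ u, ((G.neighborSet u).ncard : ℝ) * σ u)
    have l2 := neg_abs_le (∑ u, ((G.neighborSet u).ncard : ℝ) * σ u)
    refine max_le ?_ ?_ <;> linarith

/-- Even order: `max (e(V₁)) (e(V₂)) ≤ (m + W) / 4`, where `W` bounds all differences of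
degrees. -/
theorem even_bisection {V : Type} [Fintype V] (G : SimpleGraph V) (hev : Even (Fintype.card V))
    {W : ℝ} (hW0 : 0 ≤ W)
    (hW : ∀ u v, ((G.neighborSet u).ncard : ℝ) - ((G.neighborSet v).ncard : ℝ) ≤ W) :
    ∃ V₁ V₂ : Set V, IsBisection V₁ V₂ ∧
      max (edgesWithin G V₁ : ℝ) (edgesWithin G V₂ : ℝ) ≤ ((G.edgeSet.ncard : ℝ) + W) / 4 := by
  classical
  obtain ⟨σ, h1, h2, h3⟩ := slice (A := fun u v => (adj G u v : ℝ))
    (fun u v => by rw [adj_symm]) (fun u => by rw [adj_self]; simp)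
    (fun u v => by rcases adj_zero_one G u v with h | h <;> rw [h] <;> simp)
    (fun u => ((G.neighborSet u).ncard : ℝ)) hev hW0 hW
  refine finishR G h1 (by rw [h2]; simp) ?_
  rw [BB_apply] at h3
  exact h3

/-- Any order: `max (e(V₁)) (e(V₂)) ≤ (m + D) / 4`, where `D` bounds all degrees. -/
theorem all_bisection {V : Type} [Fintype V] (G : SimpleGraph V) {D : ℝ} (hD0 : 0 ≤ D)
    (hD : ∀ u, ((G.neighborSet u).ncard : ℝ) ≤ D) :
    ∃ V₁ V₂ : Set V, IsBisection V₁ V₂ ∧
      max (edgesWithin G V₁ : ℝ) (edgesWithin G V₂ : ℝ) ≤ ((G.edgeSet.ncard : ℝ) + D) / 4 := by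
  classical
  rcases Nat.even_or_odd (Fintype.card V) with hev | hodd
  · exact even_bisection G hev hD0 fun u v => by
      have := hD u
      have h2 : (0:ℝ) ≤ ((G.neighborSet v).ncard : ℝ) := Nat.cast_nonneg _
      linarith
  · -- add an isolated vertex
    have hev : Even (Fintype.card (Option V)) := by
      rw [Fintype.card_option]; exact hodd.add_one
    set B : Option V → Option V → ℝ := fun x y =>
      match x, y with
      | some u, some v => (adj G u v : ℝ)
      | _, _ => 0 with hB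
    set d : Option V → ℝ := fun x =>
      match x with
      | some u => ((G.neighborSet u).ncard : ℝ)
      | none => 0 with hd
    have dn : ∀ x, 0 ≤ d x := fun x => by
      cases x <;> simp [hd]
    have dD : ∀ x, d x ≤ D := fun x => by
      cases x with
      | none => simpa [hd] using hD0
      | some u => exact hD u
    obtain ⟨τ, h1, h2, h3⟩ := slice (A := B)
      (fun x y => by
        cases x <;> cases y <;> simp only [hB]
        rw [adj_symm])
      (fun x => by cases x <;> simp [hB, adj_self])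
      (fun x y => by
        cases x <;> cases y <;> simp only [hB, true_or]
        rename_i u v
        rcases adj_zero_one G u v with h | h <;> rw [h] <;> simp)
      d hev hD0 (fun x y => by have := dn y; have := dD x; linarith)
    refine finishR G (σ := fun v => τ (some v)) (fun v => h1 (some v)) ?_ ?_
    · rw [Fintype.sum_option] at h2
      have : ∑ v, τ (some v) = - τ none := by linarith
      rw [this]
      rcases h1 none with h | h <;> simp [h]
    · rw [BB_apply] at h3
      have z0 : ∑ u, ∑ v, B u v * τ u * τ v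
          = ∑ u, ∑ v, (adj G u v : ℝ) * τ (some u) * τ (some v) := by
        rw [Fintype.sum_option]
        have z1 : ∑ v, B none v * τ none * τ v = 0 := Finset.sum_eq_zero fun y _ => by
          cases y <;> simp [hB]
        rw [z1, zero_add]
        refine Finset.sum_congr rfl fun u _ => ?_
        rw [Fintype.sum_option]
        simp [hB]
      have z3 : ∑ u, d u * τ u = ∑ u, ((G.neighborSet u).ncard : ℝ) * τ (some u) := by
        rw [Fintype.sum_option]
        simp [hd]
      rw [z0, z3] at h3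
      exact h3

/-! ### The lower bound -/

/-- The graph `K_{t,l}`. -/
lemma count_bip' (t l : ℕ) (S : Set (Fin t ⊕ Fin l)) :
    (edgesWithin (completeBipartiteGraph (Fin t) (Fin l)) S : ℤ)
      = ((Sum.inl ⁻¹' S : Set (Fin t)).ncard : ℤ) * ((Sum.inr ⁻¹' S : Set (Fin l)).ncard : ℤ) := by
  classical
  have h := two_mul_edges (completeBipartiteGraph (Fin t) (Fin l)) S
  have a1 : ((Sum.inl ⁻¹' S : Set (Fin t)).ncard : ℤ)
      = ∑ i : Fin t, if Sum.inl i ∈ S then (1:ℤ) else 0 := by
    have : (Sum.inl ⁻¹' S : Set (Fin t)).ncard = (univ.filter fun i => Sum.inl i ∈ S).card := by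
      rw [← Set.ncard_coe_finset]; congr 1; ext v; simp
    rw [this, Finset.card_filter]; push_cast; rfl
  have a2 : ((Sum.inr ⁻¹' S : Set (Fin l)).ncard : ℤ)
      = ∑ i : Fin l, if Sum.inr i ∈ S then (1:ℤ) else 0 := by
    have : (Sum.inr ⁻¹' S : Set (Fin l)).ncard = (univ.filter fun i => Sum.inr i ∈ S).card := by
      rw [← Set.ncard_coe_finset]; congr 1; ext v; simp
    rw [this, Finset.card_filter]; push_cast; rfl
  rw [a1, a2]
  rw [Fintype.sum_sum_type] at h
  simp only [Fintype.sum_sum_type] at h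
  have z1 : ∀ i j : Fin t, adj (completeBipartiteGraph (Fin t) (Fin l)) (Sum.inl i) (Sum.inl j)
      = 0 := by intro i j; simp [adj]
  have z2 : ∀ i j : Fin l, adj (completeBipartiteGraph (Fin t) (Fin l)) (Sum.inr i) (Sum.inr j)
      = 0 := by intro i j; simp [adj]
  have z3 : ∀ (i : Fin t) (j : Fin l),
      adj (completeBipartiteGraph (Fin t) (Fin l)) (Sum.inl i) (Sum.inr j) = 1 := by
    intro i j; simp [adj]
  have z4 : ∀ (i : Fin l) (j : Fin t),
      adj (completeBipartiteGraph (Fin t) (Fin l)) (Sum.inr i) (Sum.inl j) = 1 := by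
    intro i j; simp [adj]
  simp only [z1, z2, z3, z4, ite_self, Finset.sum_const_zero, zero_add, add_zero] at h
  have p1 : ∑ i : Fin t, ∑ j : Fin l,
      (if Sum.inl i ∈ S ∧ Sum.inr j ∈ S then (1:ℤ) else 0)
      = (∑ i : Fin t, if Sum.inl i ∈ S then (1:ℤ) else 0)
        * (∑ i : Fin l, if Sum.inr i ∈ S then (1:ℤ) else 0) := by
    rw [Finset.sum_mul_sum]
    refine Finset.sum_congr rfl fun i _ => Finset.sum_congr rfl fun j _ => ?_
    by_cases h1 : Sum.inl i ∈ S <;> by_cases h2 : Sum.inr j ∈ S <;> simp [h1, h2]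
  have p2 : ∑ j : Fin l, ∑ i : Fin t,
      (if Sum.inr j ∈ S ∧ Sum.inl i ∈ S then (1:ℤ) else 0)
      = (∑ i : Fin t, if Sum.inl i ∈ S then (1:ℤ) else 0)
        * (∑ i : Fin l, if Sum.inr i ∈ S then (1:ℤ) else 0) := by
    rw [Finset.sum_comm, ← p1]
    refine Finset.sum_congr rfl fun i _ => Finset.sum_congr rfl fun j _ => ?_
    simp only [and_comm]
  rw [p1, p2] at h
  unfold edgesWithin
  linarith

/-- Sizes of the two classes in terms of the two sides of the bipartite graph. -/
lemma card_split' (t l : ℕ) (S : Set (Fin t ⊕ Fin l)) :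
    S.ncard = (Sum.inl ⁻¹' S : Set (Fin t)).ncard + (Sum.inr ⁻¹' S : Set (Fin l)).ncard := by
  classical
  have h1 : S = Sum.inl '' (Sum.inl ⁻¹' S) ∪ Sum.inr '' (Sum.inr ⁻¹' S) := by
    ext x
    cases x <;> simp
  have h2 : Disjoint (Sum.inl '' (Sum.inl ⁻¹' S) : Set (Fin t ⊕ Fin l))
      (Sum.inr '' (Sum.inr ⁻¹' S)) := by
    rw [Set.disjoint_left]
    rintro x ⟨i, _, rfl⟩ ⟨j, _, hj⟩
    exact absurd hj (by simp)
  conv_lhs => rw [h1]
  rw [Set.ncard_union_eq h2 (Set.toFinite _) (Set.toFinite _),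
    Set.ncard_image_of_injective _ Sum.inl_injective,
    Set.ncard_image_of_injective _ Sum.inr_injective]

lemma deg_bip (t l : ℕ) (v : Fin t ⊕ Fin l) :
    ((completeBipartiteGraph (Fin t) (Fin l)).neighborSet v).ncard
      = Sum.elim (fun _ => l) (fun _ => t) v := by
  classical
  have h := sum_adj (completeBipartiteGraph (Fin t) (Fin l)) v
  rw [Fintype.sum_sum_type] at h
  cases v with
  | inl i =>
    simp only [adj, completeBipartiteGraph_adj, Sum.isLeft_inl, Sum.isRight_inl,
      Sum.isLeft_inr, Sum.isRight_inr] at h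
    simp at h
    simp only [Sum.elim_inl]
    omega
  | inr i =>
    simp only [adj, completeBipartiteGraph_adj, Sum.isLeft_inl, Sum.isRight_inl,
      Sum.isLeft_inr, Sum.isRight_inr] at h
    simp at h
    simp only [Sum.elim_inr]
    omega

lemma edges_bip (t l : ℕ) :
    (completeBipartiteGraph (Fin t) (Fin l)).edgeSet.ncard = t * l := by
  have h := count_bip' t l Set.univ
  have e1 : edgesWithin (completeBipartiteGraph (Fin t) (Fin l)) Set.univ
      = (completeBipartiteGraph (Fin t) (Fin l)).edgeSet.ncard := by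
    unfold edgesWithin
    congr 1
    ext e; simp
  rw [e1] at h
  simp [Set.ncard_univ] at h
  exact_mod_cast h

/-- In every bisection of `K_{t,l}`, `t` odd, some class spans at least
`(t+1)(l-1-t)/4` edges. -/
lemma bip_big (t l : ℕ) (ht : Odd t) {V₁ V₂ : Set (Fin t ⊕ Fin l)} (hV : IsBisection V₁ V₂) :
    ((t : ℝ) + 1) * ((l : ℝ) - 1 - t) / 4
      ≤ max (edgesWithin (completeBipartiteGraph (Fin t) (Fin l)) V₁ : ℝ)
          (edgesWithin (completeBipartiteGraph (Fin t) (Fin l)) V₂ : ℝ) := by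
  obtain ⟨hU, hD, hcard⟩ := hV
  have c1 := count_bip' t l V₁
  have c2 := count_bip' t l V₂
  have n1 := card_split' t l V₁
  have n2 := card_split' t l V₂
  set a₁ := (Sum.inl ⁻¹' V₁ : Set (Fin t)).ncard with ha₁
  set a₂ := (Sum.inl ⁻¹' V₂ : Set (Fin t)).ncard with ha₂
  set b₁ := (Sum.inr ⁻¹' V₁ : Set (Fin l)).ncard with hb₁
  set b₂ := (Sum.inr ⁻¹' V₂ : Set (Fin l)).ncard with hb₂
  have hV₂ : V₂ = V₁ᶜ := by
    ext x
    constructor
    · intro hx hx1; exact Set.disjoint_left.mp hD hx1 hx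
    · intro hx
      have : x ∈ V₁ ∪ V₂ := by rw [hU]; trivial
      exact this.resolve_left hx
  have t1 : a₁ + a₂ = t := by
    have := Set.ncard_add_ncard_compl (Sum.inl ⁻¹' V₁ : Set (Fin t))
    rw [← Set.preimage_compl, ← hV₂] at this
    simpa using this
  have t2 : b₁ + b₂ = l := by
    have := Set.ncard_add_ncard_compl (Sum.inr ⁻¹' V₁ : Set (Fin l))
    rw [← Set.preimage_compl, ← hV₂] at this
    simpa using this
  rw [n1, n2] at hcard
  rw [abs_le] at hcard
  obtain ⟨s, hs⟩ := ht
  have c1' : (edgesWithin (completeBipartiteGraph (Fin t) (Fin l)) V₁ : ℝ) = a₁ * b₁ := by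
    exact_mod_cast c1
  have c2' : (edgesWithin (completeBipartiteGraph (Fin t) (Fin l)) V₂ : ℝ) = a₂ * b₂ := by
    exact_mod_cast c2
  rw [c1', c2']
  by_cases hl : (l : ℝ) - 1 - t ≤ 0
  · refine le_trans ?_ (le_max_left _ _)
    have : (0:ℝ) ≤ (a₁ : ℝ) * b₁ := by positivity
    have h2 : ((t : ℝ) + 1) * ((l : ℝ) - 1 - t) ≤ 0 :=
      mul_nonpos_of_nonneg_of_nonpos (by positivity) hl
    linarith
  push Not at hl
  have main : ∀ a b a' b' : ℕ, a + a' = t → b + b' = l →
      -1 ≤ ((a + b : ℕ) : ℤ) - ((a' + b' : ℕ) : ℤ) → s + 1 ≤ a →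
      ((t : ℝ) + 1) * ((l : ℝ) - 1 - t) / 4 ≤ (a : ℝ) * b := by
    intro a b a' b' h1 h2 h3 h4
    have hb : (l : ℤ) - 1 - t ≤ 2 * b := by push_cast at h3; omega
    have hb' : (l : ℝ) - 1 - t ≤ 2 * b := by exact_mod_cast hb
    have ha' : (t : ℝ) + 1 ≤ 2 * a := by
      have : t + 1 ≤ 2 * a := by omega
      exact_mod_cast this
    have := mul_le_mul ha' hb' hl.le (by positivity)
    nlinarith
  rcases le_or_gt (s + 1) a₁ with h | h
  · exact (main a₁ b₁ a₂ b₂ t1 t2 hcard.1 h).trans (le_max_left _ _)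
  · refine (main a₂ b₂ a₁ b₁ (by omega) (by omega) ?_ (by omega)).trans (le_max_right _ _)
    linarith [hcard.2]

/-- If for all large `l` some constant `c` satisfies the bisection bound for `K_{t,l}`, then
`c ≥ 1/4 + 1/(4t)`. -/
lemma lower_of {t : ℕ} (ht : Odd t) {c : ℝ}
    (h : ∀ l : ℕ, t ≤ l → ∃ V₁ V₂ : Set (Fin t ⊕ Fin l), IsBisection V₁ V₂ ∧
      max (edgesWithin (completeBipartiteGraph (Fin t) (Fin l)) V₁ : ℝ)
          (edgesWithin (completeBipartiteGraph (Fin t) (Fin l)) V₂ : ℝ) ≤ c * (t * l)) :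
    1 / 4 + 1 / (4 * (t : ℝ)) ≤ c := by
  have htpos : (0 : ℝ) < t := by
    obtain ⟨s, hs⟩ := ht
    have : 0 < t := by omega
    exact_mod_cast this
  by_contra hlt
  push Not at hlt
  have e : 1 / 4 + 1 / (4 * (t : ℝ)) = (t + 1) / (4 * t) := by field_simp
  rw [e, lt_div_iff₀ (by positivity)] at hlt
  have hpos : 0 < (t : ℝ) + 1 - c * (4 * t) := by linarith
  obtain ⟨l, hl⟩ := exists_nat_gt (max (t : ℝ) (((t : ℝ) + 1) * (1 + t) / (t + 1 - c * (4 * t))))
  have hlt' : t ≤ l := by
    have : (t : ℝ) < l := lt_of_le_of_lt (le_max_left _ _) hl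
    exact_mod_cast this.le
  have hl2 : ((t : ℝ) + 1) * (1 + t) / (t + 1 - c * (4 * t)) < l :=
    lt_of_le_of_lt (le_max_right _ _) hl
  rw [div_lt_iff₀ hpos] at hl2
  obtain ⟨V₁, V₂, hV, hm⟩ := h l hlt'
  have := (bip_big t l ht hV).trans hm
  nlinarith

/-- A vertex of degree `d` in a graph with all degrees at least `t - 1` forces `t d ≤ 2 m`. -/
lemma deg_le {V : Type} [Fintype V] (G : SimpleGraph V) {t : ℕ}
    (h : ∀ v, t - 1 ≤ (G.neighborSet v).ncard) (v : V) :
    t * (G.neighborSet v).ncard ≤ 2 * G.edgeSet.ncard := by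
  classical
  have hm := two_mul_m G
  unfold M2 at hm
  simp only [sum_adj] at hm
  have hm' : 2 * G.edgeSet.ncard = ∑ u, (G.neighborSet u).ncard := by exact_mod_cast hm
  rw [hm', ← Finset.add_sum_erase _ _ (Finset.mem_univ v)]
  have h1 : (G.neighborFinset v).card ≤ (Finset.univ.erase v).card := by
    apply Finset.card_le_card
    intro u hu
    rw [SimpleGraph.mem_neighborFinset] at hu
    exact Finset.mem_erase.mpr ⟨hu.ne', Finset.mem_univ _⟩
  have h2 : (G.neighborFinset v).card = (G.neighborSet v).ncard := by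
    rw [SimpleGraph.card_neighborFinset_eq_degree, ← SimpleGraph.card_neighborSet_eq_degree,
      ← Nat.card_coe_set_eq, Nat.card_eq_fintype_card]
  rw [h2] at h1
  have h3 : (Finset.univ.erase v).card * (t - 1)
      ≤ ∑ u ∈ Finset.univ.erase v, (G.neighborSet u).ncard := by
    rw [← smul_eq_mul]
    exact Finset.card_nsmul_le_sum _ _ _ fun u _ => h u
  have h4 : (G.neighborSet v).ncard * (t - 1) ≤ (Finset.univ.erase v).card * (t - 1) :=
    Nat.mul_le_mul_right _ h1
  rcases Nat.eq_zero_or_pos t with h0 | hpos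
  · simp [h0]
  · have : t * (G.neighborSet v).ncard
        = (G.neighborSet v).ncard + (G.neighborSet v).ncard * (t - 1) := by
      obtain ⟨s, rfl⟩ : ∃ s, t = s + 1 := ⟨t - 1, by omega⟩
      simp; ring
    omega

end Pool.Agent.Helper718_bisection.Slice
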